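import Mathlib
import Pool.Agent.H33.G.R_seed8.H499R2.NDStep2
import Pool.Agent.H33.G.R_seed8.H499R2.CO.D
import Pool.Agent.H33.G.R_pool_sql_team_seeded_efc1946e.K1H87.PR.EB

/-! Words of the trajectories and their number. -/

set_option autoImplicit false

namespace Pool.Agent.K1H87.PR

open Finset
open Pool.Agent.H320R2.PD
open Pool.Agent.H499R2.CO (Tz)
open Pool.Agent.H499R2.ND (ap ap_card_le mem_ap sum_periodic_le dev cnt_nonneg Wo_le)

/-- number of odd terms among the first `k` terms of the trajectory -/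
def oc : ℕ → ℤ → ℕ
  | 0, _ => 0
  | k + 1, x => oc k x + ((Tz 1)^[k] x % 2).toNat

theorem oc_succ (k : ℕ) (x : ℤ) : oc (k + 1) x = oc k x + ((Tz 1)^[k] x % 2).toNat := rfl

theorem oc_le (k : ℕ) (x : ℤ) : oc k x ≤ k := by
  induction k with
  | zero => exact le_rfl
  | succ k ih =>
    rw [oc_succ]
    have := Int.emod_lt_of_pos ((Tz 1)^[k] x) (show (0 : ℤ) < 2 by norm_num)
    omega

theorem oc_add (s : ℕ) (x : ℤ) : ∀ t : ℕ, oc (s + t) x = oc s x + oc t ((Tz 1)^[s] x) := by
  intro t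
  induction t with
  | zero => rfl
  | succ t ih =>
    rw [← add_assoc, oc_succ, ih, oc_succ, add_assoc, ← Function.iterate_add_apply, add_comm t s]

/-- the word of the first `a` steps -/
theorem word (x : ℤ) : ∀ a : ℕ, ∃ b₀ : ℕ, ∃ u : List ℕ, (∀ e ∈ u, 1 ≤ e) ∧ b₀ + u.sum = a ∧
    u.length = oc a x ∧ (3 : ℤ) ^ u.length * x + 2 ^ b₀ * (Wo u : ℤ) = 2 ^ a * (Tz 1)^[a] x := by
  intro a
  induction a with
  | zero => exact ⟨0, [], by simp, by simp, by simp [oc], by simp [Wo]⟩
  | succ a ih =>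
    obtain ⟨b₀, u, h1, h2, h3, h4⟩ := ih
    rw [oc_succ, Function.iterate_succ_apply']
    set y := (Tz 1)^[a] x with hy
    rcases Int.emod_two_eq_zero_or_one y with h | h
    · have hT : 2 * Tz 1 y = y := by
        unfold Tz
        rw [if_pos h]; omega
      rw [h]
      simp only [Int.toNat_zero, add_zero]
      cases u with
      | nil =>
        refine ⟨b₀ + 1, [], by simp, by simp at h2 ⊢; omega, h3, ?_⟩
        simp only [Wo, List.length_nil, pow_zero, Nat.cast_zero, mul_zero, add_zero, one_mul] at h4 ⊢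
        rw [h4, pow_succ, mul_assoc, hT]
      | cons e w =>
        refine ⟨b₀, (e + 1) :: w, ?_, ?_, ?_, ?_⟩
        · intro e' he'
          rcases List.mem_cons.1 he' with rfl | h'
          · omega
          · exact h1 _ (List.mem_cons_of_mem _ h')
        · simp only [List.sum_cons] at h2 ⊢; omega
        · simpa using h3
        · simp only [Wo, List.length_cons] at h4 ⊢
          rw [h4, pow_succ 2 a, mul_assoc, hT]
    · have hT : 2 * Tz 1 y = 3 * y + 1 := by
        unfold Tz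
        rw [if_neg (by omega)]; omega
      rw [h]
      refine ⟨b₀, 1 :: u, ?_, ?_, ?_, ?_⟩
      · intro e' he'
        rcases List.mem_cons.1 he' with rfl | h'
        · exact le_rfl
        · exact h1 _ h'
      · simp only [List.sum_cons]; omega
      · simp only [List.length_cons]; rw [h3]; rfl
      · simp only [Wo, List.length_cons]
        push_cast
        rw [pow_succ 2 a, mul_assoc, hT]
        have e1 : (2 : ℤ) ^ a = 2 ^ b₀ * 2 ^ u.sum := by rw [← pow_add, h2]
        calc (3 : ℤ) ^ (u.length + 1) * x + 2 ^ b₀ * (2 ^ u.sum + 3 * (Wo u : ℤ))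
            = 3 * (3 ^ u.length * x + 2 ^ b₀ * (Wo u : ℤ)) + 2 ^ b₀ * 2 ^ u.sum := by ring
          _ = 2 ^ a * (3 * y + 1) := by rw [h4, ← e1]; ring

/-- words with `o` letters and size at most `a` -/
def FS (A a o : ℕ) : Finset (List ℕ) := (FW A o).filter (fun u => u.sum ≤ a)

theorem sum_FS {M : Type*} [AddCommMonoid M] (A a o : ℕ) (f : List ℕ → M) :
    ∑ u ∈ FS A a o, f u = ∑ T ∈ range (a + 1), ∑ u ∈ FWT A o T, f u := by
  have h1 : ∑ u ∈ FS A a o, f u = ∑ T ∈ range (a + 1), ∑ u ∈ (FS A a o).filter (fun u => u.sum = T), f u := by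
    rw [sum_fiberwise_of_maps_to]
    intro u hu
    unfold FS at hu
    rw [mem_filter] at hu
    rw [mem_range]; omega
  rw [h1]
  apply sum_congr rfl
  intro T hT
  rw [mem_range] at hT
  apply sum_congr _ (fun _ _ => rfl)
  ext u
  unfold FS FWT
  simp only [mem_filter]
  constructor
  · rintro ⟨⟨h1, h2⟩, h3⟩; exact ⟨h1, h3⟩
  · rintro ⟨h1, h3⟩; exact ⟨⟨h1, by omega⟩, h3⟩

/-- the number of words -/
theorem card_FS (A : ℕ) : ∀ (o a : ℕ), (FS A a o).card ≤ a.choose o := by
  intro o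
  induction o with
  | zero =>
    intro a
    rw [Nat.choose_zero_right]
    unfold FS FW
    exact (card_filter_le _ _).trans (by simp)
  | succ o ih =>
    intro a
    have h1 : (FS A a (o + 1)).card = ∑ e ∈ Icc 1 A, ∑ w ∈ FW A o, if e + w.sum ≤ a then 1 else 0 := by
      unfold FS
      rw [card_filter, sum_FW_succ]
      refine sum_congr rfl fun e _ => sum_congr rfl fun w _ => ?_
      rw [List.sum_cons]
    have h2 : ∀ e ∈ Icc 1 A, (∑ w ∈ FW A o, if e + w.sum ≤ a then 1 else 0)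
        ≤ if e ≤ a then (a - e).choose o else 0 := by
      intro e _
      split_ifs with he
      · refine le_trans (le_of_eq ?_) (ih (a - e))
        unfold FS
        rw [card_filter]
        apply sum_congr rfl
        intro w _
        congr 1
        apply propext
        omega
      · rw [sum_eq_zero]
        intro w _
        rw [if_neg (by omega)]
    rw [h1]
    refine (sum_le_sum h2).trans ?_
    rw [← sum_filter]
    have h3 : ∑ e ∈ (Icc 1 A).filter (fun e => e ≤ a), (a - e).choose o ≤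
        ∑ e ∈ Icc 1 a, (a - e).choose o := by
      apply sum_le_sum_of_subset
      intro e he
      rw [mem_filter, mem_Icc] at he
      rw [mem_Icc]; omega
    refine h3.trans (le_of_eq ?_)
    -- hockey stick
    have h4 : ∀ a : ℕ, ∑ e ∈ Icc 1 a, (a - e).choose o = a.choose (o + 1) := by
      intro a
      induction a with
      | zero => simp
      | succ a iha =>
        rw [Nat.choose_succ_succ, ← iha]
        have h5 : ∑ e ∈ Icc 1 (a + 1), (a + 1 - e).choose o =
            ∑ e ∈ range (a + 1), (a - e).choose o := by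
          rw [range_eq_Ico, sum_Ico_eq_sum_range, ← Finset.Ico_succ_right_eq_Icc, sum_Ico_eq_sum_range]
          apply sum_congr (by simp)
          intro e _
          congr 1
          omega
        have h6 : ∑ e ∈ Icc 1 a, (a - e).choose o = ∑ e ∈ range a, (a - (e + 1)).choose o := by
          rw [← Finset.Ico_succ_right_eq_Icc, sum_Ico_eq_sum_range]
          apply sum_congr (by simp)
          intro e _
          congr 1
          omega
        rw [h5, h6, sum_range_succ']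
        simp only [Nat.sub_zero]
        ring
    exact h4 a

/-- integers of a real interval -/
noncomputable def win (X H : ℝ) : Finset ℤ := Ico ⌈X⌉ ⌈X + H⌉

theorem mem_win {X H : ℝ} {x : ℤ} : x ∈ win X H ↔ X ≤ x ∧ (x : ℝ) < X + H := by
  unfold win
  rw [mem_Ico, Int.ceil_le, Int.lt_ceil]

theorem win_card_le {X H : ℝ} (hH : 0 ≤ H) : ((win X H).card : ℝ) ≤ H + 1 := by
  have h := ap_card_le (a := X) (b := X + H) (by linarith) (q := 1) one_pos 0
  have e : ap X (X + H) 1 0 = win X H := by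
    unfold ap win
    rw [filter_true_of_mem]
    intro x _
    exact one_dvd _
  rw [e] at h
  simpa using h

/-- members of a class in a window -/
theorem win_class {X H : ℝ} (hH : 0 ≤ H) {q : ℤ} (hq : 0 < q) {P : ℤ → Prop} [DecidablePred P]
    (hP : ∀ x y : ℤ, P x → P y → q ∣ x - y) : (((win X H).filter P).card : ℝ) ≤ H / q + 1 := by
  rcases ((win X H).filter P).eq_empty_or_nonempty with h | ⟨c, hc⟩
  · rw [h]
    have : (0 : ℝ) < q := by exact_mod_cast hq
    simp only [card_empty, Nat.cast_zero]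
    positivity
  · have h1 : (win X H).filter P ⊆ ap X (X + H) q c := by
      intro x hx
      rw [mem_filter] at hx hc
      rw [mem_ap]
      exact ⟨mem_win.1 hx.1, hP x c hx.2 hc.2⟩
    have h2 := ap_card_le (a := X) (b := X + H) (by linarith) hq c
    have h3 : (((win X H).filter P).card : ℝ) ≤ ((ap X (X + H) q c).card : ℝ) := by
      exact_mod_cast card_le_card h1
    refine h3.trans (h2.trans (le_of_eq ?_))
    ring

/-- a chosen word -/
noncomputable def wd (a : ℕ) (x : ℤ) : List ℕ := (word x a).choose_spec.choose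

theorem wd_spec (a : ℕ) (x : ℤ) : (∀ e ∈ wd a x, 1 ≤ e) ∧ (wd a x).sum ≤ a ∧ (wd a x).length = oc a x ∧
    (3 : ℤ) ^ (oc a x) * x + 2 ^ (a - (wd a x).sum) * (Wo (wd a x) : ℤ) = 2 ^ a * (Tz 1)^[a] x := by
  obtain ⟨h1, h2, h3, h4⟩ := (word x a).choose_spec.choose_spec
  have e : (word x a).choose = a - (wd a x).sum := by
    unfold wd; omega
  refine ⟨h1, by unfold wd; omega, h3, ?_⟩
  rw [h3] at h4
  have e2 : (2 : ℤ) ^ (word x a).choose = 2 ^ (a - (wd a x).sum) := congrArg (fun k => (2 : ℤ) ^ k) e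
  rw [← e2]
  exact h4

theorem wd_mem {A a : ℕ} (hA : a ≤ A) (x : ℤ) : wd a x ∈ FS A a (oc a x) := by
  obtain ⟨h1, h2, h3, _⟩ := wd_spec a x
  unfold FS
  rw [mem_filter, mem_FW]
  refine ⟨⟨h3, fun e he => ⟨h1 e he, ?_⟩⟩, h2⟩
  have := List.single_le_sum (fun _ _ => Nat.zero_le _) e he
  omega

theorem wd_dvd (a : ℕ) (x : ℤ) : (3 : ℤ) ^ (oc a x) ∣ (Wo (wd a x) : ℤ) - 2 ^ (wd a x).sum * (Tz 1)^[a] x := by
  obtain ⟨_, h2, _, h4⟩ := wd_spec a x
  have e1 : (2 : ℤ) ^ a = 2 ^ (a - (wd a x).sum) * 2 ^ (wd a x).sum := by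
    rw [← pow_add]; congr 1; omega
  have h5 : (3 : ℤ) ^ (oc a x) ∣ 2 ^ (a - (wd a x).sum) *
      ((Wo (wd a x) : ℤ) - 2 ^ (wd a x).sum * (Tz 1)^[a] x) := by
    refine ⟨-x, ?_⟩
    rw [mul_sub, ← mul_assoc, ← e1, ← h4]; ring
  have hcop : IsCoprime ((3 : ℤ) ^ (oc a x)) (2 ^ (a - (wd a x).sum)) :=
    IsCoprime.pow (by norm_num)
  exact hcop.dvd_of_dvd_mul_left h5

/-- the starting point is determined by the word and the end -/
theorem wd_inj {a : ℕ} {x y : ℤ} (h1 : wd a x = wd a y) (h2 : (Tz 1)^[a] x = (Tz 1)^[a] y) : x = y := by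
  obtain ⟨_, _, a3, a4⟩ := wd_spec a x
  obtain ⟨_, _, b3, b4⟩ := wd_spec a y
  have ho : oc a x = oc a y := by rw [← a3, ← b3, h1]
  rw [h1, h2, ← b4, ho] at a4
  have h3 : (3 : ℤ) ^ oc a y * x = 3 ^ oc a y * y := by linarith
  exact mul_left_cancel₀ (by positivity) h3

/-- the class mod `2 ^ a` is determined by the word -/
theorem wd_class {a : ℕ} {x y : ℤ} (h1 : wd a x = wd a y) : (2 : ℤ) ^ a ∣ x - y := by
  obtain ⟨_, _, a3, a4⟩ := wd_spec a x
  obtain ⟨_, _, b3, b4⟩ := wd_spec a y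
  have ho : oc a x = oc a y := by rw [← a3, ← b3, h1]
  rw [h1, ho] at a4
  have h3 : (2 : ℤ) ^ a ∣ 3 ^ oc a y * (x - y) :=
    ⟨(Tz 1)^[a] x - (Tz 1)^[a] y, by linarith⟩
  have hcop : IsCoprime ((2 : ℤ) ^ a) (3 ^ oc a y) := IsCoprime.pow (by norm_num)
  exact hcop.dvd_of_dvd_mul_left h3

/-- position of the end point -/
theorem end_pos (a : ℕ) (x : ℤ) : (3 : ℝ) ^ (oc a x) / 2 ^ a * x ≤ (((Tz 1)^[a] x : ℤ) : ℝ) ∧
    (((Tz 1)^[a] x : ℤ) : ℝ) ≤ (3 : ℝ) ^ (oc a x) / 2 ^ a * (x + 2 ^ a) := by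
  obtain ⟨h1, h2, h3, h4⟩ := wd_spec a x
  have h5 : (3 : ℝ) ^ (oc a x) * x + 2 ^ (a - (wd a x).sum) * (Wo (wd a x) : ℝ) =
      2 ^ a * (((Tz 1)^[a] x : ℤ) : ℝ) := by exact_mod_cast h4
  have h6 := Wo_le h1
  rw [h3] at h6
  have h7 : (3 / 2 : ℝ) ^ oc a x ≤ 3 ^ oc a x := pow_le_pow_left₀ (by norm_num) (by norm_num) _
  have e1 : (2 : ℝ) ^ a = 2 ^ (a - (wd a x).sum) * 2 ^ (wd a x).sum := by
    rw [← pow_add]; congr 1; omega
  have h8 : 0 ≤ (2 : ℝ) ^ (a - (wd a x).sum) * (Wo (wd a x) : ℝ) := by positivity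
  have h9 : (2 : ℝ) ^ (a - (wd a x).sum) * (Wo (wd a x) : ℝ) ≤ 2 ^ a * 3 ^ oc a x := by
    rw [e1, mul_assoc]
    apply mul_le_mul_of_nonneg_left _ (by positivity)
    refine h6.trans ?_
    apply mul_le_mul_of_nonneg_left _ (by positivity)
    linarith
  have ha : (0 : ℝ) < 2 ^ a := by positivity
  constructor
  · rw [div_mul_eq_mul_div, div_le_iff₀ ha]; linarith
  · rw [div_mul_eq_mul_div, le_div_iff₀ ha]; nlinarith

end Pool.Agent.K1H87.PR
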