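import Mathlib
import Pool.Agent.H33.G.R_pool_sql_team_seeded_efc1946e.K1H87.PR.Stage

/-! Domination of the law of the trajectories of a short interval. -/

set_option autoImplicit false

namespace Pool.Agent.K1H87.PR

open Finset
open Pool.Agent.H320R2.PD
open Pool.Agent.H499R2.CO (Tz)
open Pool.Agent.H499R2.ND (dev dev_le gam_all)

theorem sum_inv_sq_le {m k : ℕ} (hm : 2 ≤ m) : ∑ J ∈ Ico m k, (1 : ℝ) / (J : ℝ) ^ 2 ≤ 2 / m := by
  rcases Nat.lt_or_ge k m with h | h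
  · rw [Ico_eq_empty (by omega)]; simp only [sum_empty]; positivity
  · have h1 : Ico m k = Ioc (m - 1) (k - 1) := by
      ext x; rw [mem_Ico, mem_Ioc]; omega
    have h2 := sum_Ioc_inv_sq_le_sub (α := ℝ) (k := m - 1) (n := k - 1) (by omega) (by omega)
    rw [h1]
    simp only [one_div]
    refine h2.trans ?_
    have h3 : (0 : ℝ) ≤ ((k - 1 : ℕ) : ℝ)⁻¹ := by positivity
    have h4 : (((m - 1 : ℕ) : ℝ))⁻¹ ≤ 2 / m := by
      rw [inv_eq_one_div, div_le_div_iff₀ (by exact_mod_cast (by omega : 0 < m - 1))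
        (by exact_mod_cast (by omega : 0 < m))]
      have : m ≤ 2 * (m - 1) := by omega
      have h5 : (m : ℝ) ≤ 2 * ((m - 1 : ℕ) : ℝ) := by exact_mod_cast this
      linarith
    linarith

theorem dev_small {η : ℝ} (hη : 0 < η) : ∃ m : ℕ, 1 ≤ m ∧ ∀ k A : ℕ, m ≤ k → 3 * k ≤ A →
    ∑ T ∈ range (k * A + 1), dev (FWT A k T) wwt (fun w => (Wo w : ℤ)) k m ≤ η := by
  obtain ⟨C, hC, hg⟩ := gam_all 4
  obtain ⟨m, hm⟩ := exists_nat_gt (2 * √ (2 * C) / η + 2)
  have hm2 : 2 ≤ m := by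
    have : (2 : ℝ) < m := by
      refine lt_of_le_of_lt ?_ hm
      have : 0 ≤ 2 * √ (2 * C) / η := by positivity
      linarith
    exact_mod_cast this.le
  refine ⟨m, by omega, fun k A hk hA => ?_⟩
  have hk1 : 1 ≤ k := by omega
  have hnn : ∀ T, ∀ w ∈ FWT A k T, 0 ≤ wwt w := fun T w _ => wwt_nonneg w
  have hmass : ∑ T ∈ range (k * A + 1), ∑ w ∈ FWT A k T, wwt w ≤ 1 := by
    unfold FWT
    rw [sum_fiberwise_of_maps_to (g := fun w : List ℕ => w.sum)]
    · exact sum_wwt_le A k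
    · intro w hw
      have := (sum_le_of_mem hw).2
      simp only [mem_range]
      omega
  calc ∑ T ∈ range (k * A + 1), dev (FWT A k T) wwt (fun w => (Wo w : ℤ)) k m
      ≤ ∑ T ∈ range (k * A + 1), ∑ J ∈ Ico m k, Real.sqrt (2 * ∑ i ∈ FWT A k T, wwt i)
          * Real.sqrt (Gam (FWT A k T) wwt (fun w => (Wo w : ℤ)) J) :=
        sum_le_sum fun T _ => dev_le _ (hnn T) m k hk
    _ = ∑ J ∈ Ico m k, ∑ T ∈ range (k * A + 1), Real.sqrt (2 * ∑ i ∈ FWT A k T, wwt i)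
          * Real.sqrt (Gam (FWT A k T) wwt (fun w => (Wo w : ℤ)) J) := sum_comm
    _ ≤ ∑ J ∈ Ico m k, Real.sqrt 2 * Real.sqrt (gam A k J) := by
        apply sum_le_sum
        intro J _
        refine (Real.sum_sqrt_mul_sqrt_le (range (k * A + 1))
          (f := fun T => 2 * ∑ i ∈ FWT A k T, wwt i)
          (g := fun T => Gam (FWT A k T) wwt (fun w => (Wo w : ℤ)) J) ?_ ?_).trans ?_
        · intro T
          have := sum_nonneg (hnn T)
          positivity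
        · intro T; exact Pool.Agent.H320R2.PD.Gam_nonneg _ J (hnn T)
        · apply mul_le_mul_of_nonneg_right _ (Real.sqrt_nonneg _)
          apply Real.sqrt_le_sqrt
          rw [← mul_sum]
          linarith
    _ ≤ ∑ J ∈ Ico m k, Real.sqrt (2 * C) * (1 / (J : ℝ) ^ 2) := by
        apply sum_le_sum
        intro J hJ
        rw [mem_Ico] at hJ
        have h1 := hg k 0 J A J hk1 (by omega) hA le_rfl (by omega)
        have h2 : gam A k J ≤ C * (1 / (J : ℝ) ^ 2) ^ 2 := by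
          refine h1.trans (le_of_eq ?_)
          simp
          left
          rw [← pow_mul]
        rw [← Real.sqrt_mul (by norm_num)]
        calc Real.sqrt (2 * gam A k J)
            ≤ Real.sqrt (2 * C * (1 / (J : ℝ) ^ 2) ^ 2) := Real.sqrt_le_sqrt (by linarith)
          _ = Real.sqrt (2 * C) * (1 / (J : ℝ) ^ 2) := by
              rw [Real.sqrt_mul (by positivity), Real.sqrt_sq (by positivity)]
    _ = Real.sqrt (2 * C) * ∑ J ∈ Ico m k, 1 / (J : ℝ) ^ 2 := by rw [mul_sum]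
    _ ≤ Real.sqrt (2 * C) * (2 / m) :=
        mul_le_mul_of_nonneg_left (sum_inv_sq_le hm2) (Real.sqrt_nonneg _)
    _ ≤ η := by
        have hmR : (0 : ℝ) < m := by exact_mod_cast (by omega : 0 < m)
        rw [← mul_div_assoc, div_le_iff₀ hmR]
        have h1 : 2 * √ (2 * C) / η < m := by linarith
        rw [div_lt_iff₀ hη] at h1
        linarith

theorem geom_le (T A₁ : ℕ) : ∑ a ∈ Icc T A₁, (2 : ℝ) ^ T / 2 ^ a ≤ 2 := by
  rcases Nat.lt_or_ge A₁ T with h | h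
  · rw [Icc_eq_empty (by omega)]; norm_num
  · have : ∑ a ∈ Icc T A₁, (2 : ℝ) ^ T / 2 ^ a = 2 - 2 ^ T / 2 ^ A₁ := by
      induction A₁, h using Nat.le_induction with
      | base => simp; norm_num
      | succ n hn ih =>
        rw [sum_Icc_succ_top (by omega), ih]
        rw [pow_succ]
        field_simp
        ring
    rw [this]
    have : (0 : ℝ) ≤ 2 ^ T / 2 ^ A₁ := by positivity
    linarith

/-- a good length of a stage -/
theorem pigeon {η : ℝ} (hη : 0 < η) : ∃ m : ℕ, 1 ≤ m ∧ ∀ A₁ : ℕ, 1 ≤ A₁ →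
    ∃ a : ℕ, A₁ ≤ 2 * a ∧ a ≤ A₁ ∧ Er (3 * A₁) m a ≤ η := by
  obtain ⟨m, hm, h⟩ := dev_small (η := η / 4) (by positivity)
  refine ⟨m, hm, fun A₁ hA₁ => ?_⟩
  by_contra hcon
  push Not at hcon
  set dv : ℕ → ℕ → ℝ := fun o T => dev (FWT (3 * A₁) o T) wwt (fun w => (Wo w : ℤ)) o m with hdv
  have hdv0 : ∀ o T, 0 ≤ dv o T := fun o T => dev_nonneg _ _ _ _ _
  have h1 : ∑ a ∈ Icc ((A₁ + 1) / 2) A₁, Er (3 * A₁) m a ≤
      ∑ a ∈ Icc ((A₁ + 1) / 2) A₁, ∑ o ∈ Icc m A₁, ∑ T ∈ range (A₁ + 1),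
        if T ≤ a then (2 : ℝ) ^ T / 2 ^ a * dv o T else 0 := by
    apply sum_le_sum
    intro a ha
    rw [mem_Icc] at ha
    unfold Er
    have h2 : ∀ o, ∑ T ∈ range (a + 1), (2 : ℝ) ^ T / 2 ^ a * dv o T =
        ∑ T ∈ range (A₁ + 1), if T ≤ a then (2 : ℝ) ^ T / 2 ^ a * dv o T else 0 := by
      intro o
      rw [← sum_filter]
      apply sum_congr _ (fun _ _ => rfl)
      ext T; rw [mem_filter, mem_range, mem_range]; omega
    calc ∑ o ∈ Icc m a, ∑ T ∈ range (a + 1), (2 : ℝ) ^ T / 2 ^ a * dv o T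
        = ∑ o ∈ Icc m a, ∑ T ∈ range (A₁ + 1), (if T ≤ a then (2 : ℝ) ^ T / 2 ^ a * dv o T else 0) :=
          sum_congr rfl fun o _ => h2 o
      _ ≤ _ := by
          apply sum_le_sum_of_subset_of_nonneg
          · intro o ho; rw [mem_Icc] at ho ⊢; omega
          · intro o _ _
            apply sum_nonneg
            intro T _
            split_ifs
            · exact mul_nonneg (by positivity) (hdv0 o T)
            · exact le_rfl
  have h2 : ∑ a ∈ Icc ((A₁ + 1) / 2) A₁, ∑ o ∈ Icc m A₁, ∑ T ∈ range (A₁ + 1),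
        (if T ≤ a then (2 : ℝ) ^ T / 2 ^ a * dv o T else 0) ≤ ∑ o ∈ Icc m A₁, ∑ T ∈ range (A₁ + 1), 2 * dv o T := by
    rw [sum_comm]
    apply sum_le_sum
    intro o _
    rw [sum_comm]
    apply sum_le_sum
    intro T _
    have h3 : ∑ a ∈ Icc ((A₁ + 1) / 2) A₁, (if T ≤ a then (2 : ℝ) ^ T / 2 ^ a * dv o T else 0) ≤
        ∑ a ∈ Icc T A₁, (2 : ℝ) ^ T / 2 ^ a * dv o T := by
      rw [← sum_filter]
      apply sum_le_sum_of_subset_of_nonneg
      · intro a ha; rw [mem_filter, mem_Icc] at ha; rw [mem_Icc]; omega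
      · intro a _ _; exact mul_nonneg (by positivity) (hdv0 o T)
    refine h3.trans ?_
    rw [← sum_mul]
    exact mul_le_mul_of_nonneg_right (geom_le T A₁) (hdv0 o T)
  have h3 : ∑ o ∈ Icc m A₁, ∑ T ∈ range (A₁ + 1), 2 * dv o T ≤ ∑ o ∈ Icc m A₁, 2 * (η / 4) := by
    apply sum_le_sum
    intro o ho
    rw [mem_Icc] at ho
    rw [← mul_sum]
    apply mul_le_mul_of_nonneg_left _ (by norm_num)
    refine le_trans ?_ (h o (3 * A₁) ho.1 (by omega))
    apply sum_le_sum_of_subset_of_nonneg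
    · intro T hT
      rw [mem_range] at hT ⊢
      have : A₁ ≤ o * (3 * A₁) := by nlinarith
      omega
    · intro T _ _; exact hdv0 o T
  have h4 : ∑ o ∈ Icc m A₁, 2 * (η / 4) ≤ A₁ * (η / 2) := by
    rw [sum_const, Nat.card_Icc, nsmul_eq_mul]
    have : ((A₁ + 1 - m : ℕ) : ℝ) ≤ A₁ := by exact_mod_cast (by omega : A₁ + 1 - m ≤ A₁)
    nlinarith
  have h5 : ∑ a ∈ Icc ((A₁ + 1) / 2) A₁, η < ∑ a ∈ Icc ((A₁ + 1) / 2) A₁, Er (3 * A₁) m a := by
    apply sum_lt_sum_of_nonempty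
    · exact ⟨A₁, by rw [mem_Icc]; omega⟩
    · intro a ha
      rw [mem_Icc] at ha
      exact hcon a (by omega) ha.2
  rw [sum_const, Nat.card_Icc, nsmul_eq_mul] at h5
  have h6 : (A₁ : ℝ) / 2 ≤ ((A₁ + 1 - (A₁ + 1) / 2 : ℕ) : ℝ) := by
    rw [div_le_iff₀ (by norm_num)]
    exact_mod_cast (by omega : A₁ ≤ (A₁ + 1 - (A₁ + 1) / 2) * 2)
  nlinarith

/-- the sum over the image windows -/
noncomputable def RR (t : ℕ) (g X H : ℝ) (ψ : ℕ → ℤ → ℝ) (o : ℕ) : ℝ :=
  if |(o : ℝ) - t / 2| ≤ g then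
    2 ^ t / 3 ^ o * ∑ M ∈ win (3 ^ o / 2 ^ t * X) (3 ^ o / 2 ^ t * H), ψ o M else 0

/-- the law of the members of a window after `t` steps is dominated by `C` times the ideal law, up to `η` -/
def Dom (t : ℕ) (g C η H₀ : ℝ) : Prop :=
  ∀ X H : ℝ, H₀ ≤ H → ∀ ψ : ℕ → ℤ → ℝ, (∀ o M, 0 ≤ ψ o M ∧ ψ o M ≤ 1) →
    ∑ n ∈ win X H, ψ (oc t n) ((Tz 1)^[t] n) ≤ C * EB t (RR t g X H ψ) + η * H

theorem RR_nonneg {t : ℕ} {g X H : ℝ} {ψ : ℕ → ℤ → ℝ} (hψ : ∀ o M, 0 ≤ ψ o M) (o : ℕ) :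
    0 ≤ RR t g X H ψ o := by
  unfold RR
  split_ifs
  · exact mul_nonneg (by positivity) (sum_nonneg fun M _ => hψ o M)
  · exact le_rfl

theorem Dom_zero {H₀ : ℝ} (h0 : 0 ≤ H₀) : Dom 0 0 1 0 H₀ := by
  intro X H _ ψ hψ
  rw [EB_zero]
  unfold RR
  simp only [Nat.cast_zero, zero_div, sub_self, abs_zero, le_refl, if_true, pow_zero, div_one, one_mul,
    zero_mul, add_zero, oc, Function.iterate_zero, id]

theorem Dom_mono {t : ℕ} {g C C' η η' H₀ H₀' : ℝ} (h : Dom t g C η H₀) (hC : C ≤ C') (hη : η ≤ η')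
    (hH : H₀ ≤ H₀') (h0 : 0 ≤ H₀') : Dom t g C' η' H₀' := by
  intro X H hH' ψ hψ
  refine (h X H (hH.trans hH') ψ hψ).trans ?_
  have h1 : 0 ≤ EB t (RR t g X H ψ) := EB_nonneg fun o _ => RR_nonneg (fun o M => (hψ o M).1) o
  have h2 : 0 ≤ H := h0.trans hH'
  have h3 := mul_le_mul_of_nonneg_right hC h1
  have h4 := mul_le_mul_of_nonneg_right hη h2
  linarith

/-- COMPOSITION OF STAGES -/
theorem Dom_comp {t t' : ℕ} {g g' C C' η η' H₀ H₀' : ℝ} (h0 : 0 ≤ H₀) (hC : 0 ≤ C) (hC' : 0 ≤ C')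
    (hη' : 0 ≤ η')
    (h : Dom t g C η H₀) (h' : Dom t' g' C' η' H₀')
    (hlen : ∀ o : ℕ, |(o : ℝ) - t / 2| ≤ g → H₀' ≤ 3 ^ o / 2 ^ t * H₀) :
    Dom (t + t') (g + g') (C * C') (η + C * η') H₀ := by
  intro X H hH ψ hψ
  have hH0 : 0 ≤ H := h0.trans hH
  set ψ₂ : ℕ → ℤ → ℝ := fun o M => ψ (o + oc t' M) ((Tz 1)^[t'] M) with hψ₂
  have e1 : ∑ n ∈ win X H, ψ (oc (t + t') n) ((Tz 1)^[t + t'] n) =
      ∑ n ∈ win X H, ψ₂ (oc t n) ((Tz 1)^[t] n) := by
    apply sum_congr rfl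
    intro n _
    simp only [hψ₂]
    rw [oc_add, add_comm t t', Function.iterate_add_apply]
  rw [e1]
  refine (h X H hH ψ₂ (fun o M => hψ _ _)).trans ?_
  have key : ∀ o, o ≤ t → RR t g X H ψ₂ o ≤
      C' * EB t' (fun o' => RR (t + t') (g + g') X H ψ (o + o')) + η' * H := by
    intro o _
    have hnn : 0 ≤ C' * EB t' (fun o' => RR (t + t') (g + g') X H ψ (o + o')) :=
      mul_nonneg hC' (EB_nonneg fun o' _ => RR_nonneg (fun o M => (hψ o M).1) _)
    have hnn2 : 0 ≤ η' * H := by positivity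
    unfold RR
    split_ifs with ho
    · have hlen' := hlen o ho
      have h1 := h' (3 ^ o / 2 ^ t * X) (3 ^ o / 2 ^ t * H)
        (hlen'.trans (mul_le_mul_of_nonneg_left hH (by positivity))) (fun o' M' => ψ (o + o') M')
        (fun o' M' => hψ _ _)
      have h2 := mul_le_mul_of_nonneg_left h1 (show (0 : ℝ) ≤ 2 ^ t / 3 ^ o by positivity)
      refine h2.trans ?_
      rw [mul_add]
      apply add_le_add
      · rw [← mul_assoc, mul_comm _ C', mul_assoc, ← EB_smul]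
        apply mul_le_mul_of_nonneg_left _ hC'
        apply EB_mono
        intro o' _
        unfold RR
        split_ifs with h3 h4 h4
        · apply le_of_eq
          have hx : ∀ Y : ℝ, 3 ^ o' / 2 ^ t' * (3 ^ o / 2 ^ t * Y) = 3 ^ (o + o') / 2 ^ (t + t') * Y := by
            intro Y; rw [pow_add, pow_add]; field_simp
          rw [hx, hx, ← mul_assoc]
          congr 1
          rw [pow_add, pow_add]; field_simp
        · exfalso
          apply h4
          push_cast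
          have : (o : ℝ) + o' - (t + t') / 2 = (o - t / 2) + (o' - t' / 2) := by ring
          rw [this]
          exact (abs_add_le _ _).trans (add_le_add ho h3)
        · rw [mul_zero]
          exact mul_nonneg (by positivity) (sum_nonneg fun M _ => (hψ _ M).1)
        · rw [mul_zero]
      · apply le_of_eq
        field_simp
    · exact add_nonneg hnn hnn2
  have h1 := EB_mono t (f := RR t g X H ψ₂)
    (g := fun o => C' * EB t' (fun o' => RR (t + t') (g + g') X H ψ (o + o')) + η' * H) key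
  rw [EB_add, EB_const, EB_smul] at h1
  rw [EB_comp]
  have h2 := mul_le_mul_of_nonneg_left h1 hC
  linarith

/-- one stage -/
theorem Dom_stage {η δ : ℝ} (hη : 0 < η) (hδ : 0 < δ) (hδ4 : δ ≤ 1 / 4) : ∃ C : ℝ, 1 ≤ C ∧ ∃ A₀ : ℕ,
    ∀ A₁ : ℕ, A₀ ≤ A₁ → ∃ a : ℕ, A₁ ≤ 2 * a ∧ a ≤ A₁ ∧ Dom a (δ * a) C η (8 / η * 2 ^ a) := by
  obtain ⟨m, hm, h⟩ := pigeon (η := η / 8) (by positivity)
  obtain ⟨A₀, hA₀⟩ := exists_nat_gt (8 * m + 4 / (δ ^ 2 * η) + 8 / η)
  refine ⟨3 ^ m, one_le_pow₀ (by norm_num), A₀ + 1, fun A₁ hA₁ => ?_⟩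
  obtain ⟨a, h1, h2, h3⟩ := h A₁ (by omega)
  refine ⟨a, h1, h2, ?_⟩
  have hA₁R : (A₀ : ℝ) ≤ A₁ := by exact_mod_cast (by omega : A₀ ≤ A₁)
  have haR : (A₁ : ℝ) ≤ 2 * a := by exact_mod_cast h1
  have p1 : 0 ≤ 4 / (δ ^ 2 * η) := by positivity
  have p2 : 0 ≤ 8 / η := by positivity
  have p3 : (0 : ℝ) ≤ m := Nat.cast_nonneg _
  have ham : 4 * (m : ℝ) ≤ a := by linarith
  have hm1 : (1 : ℝ) ≤ m := by exact_mod_cast hm
  have ha0 : (0 : ℝ) < a := by linarith
  intro X H hH ψ hψ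
  have h2a : (1 : ℝ) ≤ 2 ^ a := one_le_pow₀ (by norm_num)
  have hH1 : 8 * 2 ^ a ≤ η * H := by
    have := mul_le_mul_of_nonneg_left hH hη.le
    refine le_trans (le_of_eq ?_) this
    field_simp
  by_cases hη1 : η ≤ 8
  · have hH2 : (2 : ℝ) ^ a ≤ H := by
      refine le_trans ?_ hH
      have : 1 ≤ 8 / η := by rw [le_div_iff₀ hη]; linarith
      nlinarith
    have hH0 : 0 ≤ H := by linarith
    have h4 := stage_det (A := 3 * A₁) (a := a) (m := m) (by omega) (X := X) (H := H) (g := δ * a)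
      (by positivity) hH2 (by
        intro o ho
        have h5 := (abs_le.1 ho).1
        have h6 : (m : ℝ) ≤ o := by nlinarith
        exact_mod_cast h6) hψ
    unfold RR
    refine h4.trans ?_
    apply add_le_add le_rfl
    have h5 : 2 * H * Er (3 * A₁) m a ≤ η / 4 * H := by nlinarith
    have h6 : (2 : ℝ) ^ a + 1 ≤ η / 4 * H := by linarith
    have h7 : 2 * H * (a / (4 * (δ * a) ^ 2)) ≤ η / 4 * H := by
      have h8 : (a : ℝ) / (4 * (δ * a) ^ 2) ≤ η / 8 := by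
        rw [div_le_div_iff₀ (by positivity) (by norm_num)]
        have h9 : 4 / (δ ^ 2 * η) < 2 * a := by linarith
        rw [div_lt_iff₀ (by positivity)] at h9
        have h10 : 2 * (a : ℝ) ≤ η * δ ^ 2 * a * a := by nlinarith
        nlinarith
      nlinarith
    linarith
  · -- trivial bound
    push Not at hη1
    have hnn : 0 ≤ EB a (RR a (δ * a) X H ψ) := EB_nonneg fun o _ => RR_nonneg (fun o M => (hψ o M).1) o
    have hH0 : 0 ≤ H := by
      by_contra hc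
      push Not at hc
      nlinarith
    have h4 : ∑ n ∈ win X H, ψ (oc a n) ((Tz 1)^[a] n) ≤ H + 1 := by
      refine le_trans ?_ (win_card_le (X := X) hH0)
      calc ∑ n ∈ win X H, ψ (oc a n) ((Tz 1)^[a] n) ≤ ∑ n ∈ win X H, (1 : ℝ) :=
            sum_le_sum fun n _ => (hψ _ _).2
        _ = _ := by rw [sum_const, nsmul_eq_mul, mul_one]
    have h5 : 0 ≤ (3 : ℝ) ^ m * EB a (RR a (δ * a) X H ψ) := by positivity
    nlinarith

end Pool.Agent.K1H87.PR
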