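import Mathlib
import Pool.Agent.H33.G.R_pool_sql_team_seeded_efc1946e.K1H87.PR.Dom

/-! Iteration of the stages. -/

set_option autoImplicit false

namespace Pool.Agent.K1H87.PR

open Finset

/-- the loss of size per step -/
noncomputable def c0 : ℝ := 1 - Real.log 3 / (2 * Real.log 2)

theorem log2_pos : (0 : ℝ) < Real.log 2 := Real.log_pos (by norm_num)

theorem log3_le : Real.log 3 ≤ 1.6 * Real.log 2 := by
  have h : Real.log (3 ^ 5) ≤ Real.log (2 ^ 8) := Real.log_le_log (by norm_num) (by norm_num)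
  rw [Real.log_pow, Real.log_pow] at h
  push_cast at h
  linarith

theorem log3_ge : 1.58 * Real.log 2 ≤ Real.log 3 := by
  have h : Real.log (2 ^ 19) ≤ Real.log (3 ^ 12) := Real.log_le_log (by norm_num) (by norm_num)
  rw [Real.log_pow, Real.log_pow] at h
  push_cast at h
  have := log2_pos
  linarith

theorem c0_ge : 0.2 ≤ c0 := by
  unfold c0
  have h : Real.log 3 / (2 * Real.log 2) ≤ 0.8 := by
    rw [div_le_iff₀ (by have := log2_pos; linarith)]
    have := log3_le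
    linarith
  linarith

theorem c0_le : c0 ≤ 0.21 := by
  unfold c0
  have h : 0.79 ≤ Real.log 3 / (2 * Real.log 2) := by
    rw [le_div_iff₀ (by have := log2_pos; linarith)]
    have := log3_ge
    linarith
  linarith

theorem exp_log_nat {x : ℝ} (hx : 0 < x) (n : ℕ) : Real.exp (Real.log x * n) = x ^ n := by
  rw [mul_comm, Real.exp_nat_mul, Real.exp_log hx]

/-- lengths of the image windows -/
theorem len_eq (o t L : ℕ) : (3 : ℝ) ^ o / 2 ^ t * 2 ^ L =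
    Real.exp (Real.log 2 * (L - c0 * t) + Real.log 3 * ((o : ℝ) - t / 2)) := by
  have e : Real.log 2 * ((L : ℝ) - c0 * t) + Real.log 3 * ((o : ℝ) - t / 2) =
      o * Real.log 3 - t * Real.log 2 + L * Real.log 2 := by
    unfold c0
    have := log2_pos
    field_simp
    ring
  rw [e, Real.exp_add, Real.exp_sub, mul_comm (o : ℝ), mul_comm (t : ℝ), mul_comm (L : ℝ),
    exp_log_nat (by norm_num), exp_log_nat (by norm_num), exp_log_nat (by norm_num)]

theorem len_ge {o t L : ℕ} {g : ℝ} (h : |(o : ℝ) - t / 2| ≤ g) :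
    Real.exp (Real.log 2 * (L - c0 * t - 1.6 * g)) ≤ (3 : ℝ) ^ o / 2 ^ t * 2 ^ L := by
  rw [len_eq]
  apply Real.exp_le_exp.2
  have h1 := (abs_le.1 h).1
  have h0 : 0 ≤ g := (abs_nonneg _).trans h
  have h3 := log3_le
  have h2 := log2_pos
  have h4 : 0 ≤ Real.log 3 := Real.log_nonneg (by norm_num)
  nlinarith

theorem len_le {o t L : ℕ} {g : ℝ} (h : |(o : ℝ) - t / 2| ≤ g) :
    (3 : ℝ) ^ o / 2 ^ t * 2 ^ L ≤ Real.exp (Real.log 2 * (L - c0 * t + 1.6 * g)) := by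
  rw [len_eq]
  apply Real.exp_le_exp.2
  have h1 := (abs_le.1 h).2
  have h0 : 0 ≤ g := (abs_nonneg _).trans h
  have h3 := log3_le
  have h2 := log2_pos
  have h4 : 0 ≤ Real.log 3 := Real.log_nonneg (by norm_num)
  nlinarith

/-- the state of the iteration after `s` stages -/
def Cl (ε : ℝ) (s : ℕ) : Prop := ∀ η γ : ℝ, 0 < η → 0 < γ → ∃ C : ℝ, 1 ≤ C ∧ ∃ L₀ : ℕ, ∀ L : ℕ, L₀ ≤ L →
  ∃ (t : ℕ) (g : ℝ), 0 ≤ g ∧ g ≤ γ * L ∧ Dom t g C η (2 ^ L) ∧ ε / 3 * L ≤ L - c0 * t ∧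
    L - c0 * t ≤ max (ε * L) (0.95 ^ s * L)

theorem Cl_zero {ε : ℝ} (hε1 : ε ≤ 1) : Cl ε 0 := by
  intro η γ hη hγ
  refine ⟨1, le_rfl, 0, fun L _ => ⟨0, 0, le_rfl, by positivity, ?_, ?_, ?_⟩⟩
  · exact Dom_mono (Dom_zero (H₀ := 2 ^ L) (by positivity)) le_rfl hη.le le_rfl (by positivity)
  · have : (0 : ℝ) ≤ L := Nat.cast_nonneg _
    simp only [Nat.cast_zero, mul_zero, sub_zero]
    nlinarith
  · simp

theorem Cl_succ {ε : ℝ} (hε : 0 < ε) (hε1 : ε ≤ 1) {s : ℕ} (h : Cl ε s) : Cl ε (s + 1) := by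
  intro η γ hη hγ
  obtain ⟨C, hC, L₀, hL₀⟩ := h (η / 2) (min (γ / 2) (ε / 16)) (by positivity) (by positivity)
  have hCpos : 0 < C := by linarith
  obtain ⟨C', hC', A₀, hA₀⟩ := Dom_stage (η := η / (2 * C)) (δ := min (γ / 2) (1 / 4)) (by positivity)
    (by positivity) (min_le_right _ _)
  obtain ⟨K, hK⟩ := exists_nat_gt (8 / (η / (2 * C)))
  have hK2 : 8 / (η / (2 * C)) ≤ 2 ^ K := by
    refine hK.le.trans ?_
    exact_mod_cast (Nat.lt_two_pow_self (n := K)).le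
  obtain ⟨L₁, hL₁⟩ := exists_nat_gt ((20 * K + 20 + 2 * A₀ : ℝ) / ε)
  refine ⟨C * C', by nlinarith, L₀ + L₁, fun L hL => ?_⟩
  obtain ⟨t, g, hg0, hg, hD, h1, h2⟩ := hL₀ L (by omega)
  have hLR : (20 * K + 20 + 2 * A₀ : ℝ) / ε < L :=
    lt_of_lt_of_le hL₁ (by exact_mod_cast (by omega : L₁ ≤ L))
  rw [div_lt_iff₀ hε] at hLR
  have hL0 : (0 : ℝ) ≤ L := Nat.cast_nonneg _
  have hKn : (0 : ℝ) ≤ K := Nat.cast_nonneg _
  have hAn : (0 : ℝ) ≤ A₀ := Nat.cast_nonneg _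
  set ρ : ℝ := L - c0 * t with hρ
  have hgε : 1.6 * g ≤ 0.1 * (ε * L) := by
    have := min_le_right (γ / 2) (ε / 16)
    have h3 : g ≤ ε / 16 * L := hg.trans (mul_le_mul_of_nonneg_right this hL0)
    linarith
  have hgγ : g ≤ γ / 2 * L := hg.trans (mul_le_mul_of_nonneg_right (min_le_left _ _) hL0)
  rcases le_or_gt ρ (ε * L) with hcase | hcase
  · refine ⟨t, g, hg0, by nlinarith, ?_, h1, le_max_of_le_left hcase⟩
    exact Dom_mono hD (by nlinarith) (by linarith) le_rfl (by positivity)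
  · have hρL : ρ ≤ L := by
      have : 0 ≤ c0 * t := by have := c0_ge; positivity
      linarith
    have hbig : 0 ≤ ρ - 1.6 * g - K := by linarith
    obtain ⟨A₁, hA₁⟩ : ∃ A₁ : ℕ, A₁ = ⌊ρ - 1.6 * g - K⌋₊ := ⟨_, rfl⟩
    have hA1 : (A₁ : ℝ) ≤ ρ - 1.6 * g - K := by rw [hA₁]; exact Nat.floor_le hbig
    have hA2 : ρ - 1.6 * g - K - 1 < A₁ := by
      have := Nat.lt_floor_add_one (ρ - 1.6 * g - K)
      rw [← hA₁] at this
      linarith
    have hA3 : 0.8 * ρ ≤ A₁ := by linarith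
    have hA4 : A₀ ≤ A₁ := by
      have : (A₀ : ℝ) ≤ A₁ := by nlinarith
      exact_mod_cast this
    obtain ⟨a, ha1, ha2, ha3⟩ := hA₀ A₁ hA4
    have ha1R : (A₁ : ℝ) ≤ 2 * a := by exact_mod_cast ha1
    have ha2R : (a : ℝ) ≤ A₁ := by exact_mod_cast ha2
    have hc1 := c0_ge
    have hc2 := c0_le
    have haρ : (a : ℝ) ≤ ρ := by linarith
    have ha0 : (0 : ℝ) ≤ a := Nat.cast_nonneg _
    have hnew : (L : ℝ) - c0 * ((t + a : ℕ) : ℝ) = ρ - c0 * a := by push_cast; rw [hρ]; ring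
    refine ⟨t + a, g + min (γ / 2) (1 / 4) * a, by positivity, ?_, ?_, ?_, ?_⟩
    · have h3 : min (γ / 2) (1 / 4) * a ≤ γ / 2 * L := by
        apply mul_le_mul (min_le_left _ _) (by linarith) ha0 (by positivity)
      linarith
    · have h4 := Dom_comp (by positivity) hCpos.le (by linarith) (by positivity) hD ha3 (by
        intro o ho
        refine le_trans ?_ (len_ge ho)
        have h5 : (2 : ℝ) ^ K * 2 ^ a ≤ Real.exp (Real.log 2 * (L - c0 * t - 1.6 * g)) := by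
          rw [← pow_add]
          rw [← exp_log_nat (by norm_num : (0 : ℝ) < 2) (K + a)]
          apply Real.exp_le_exp.2
          apply mul_le_mul_of_nonneg_left _ log2_pos.le
          push_cast
          linarith
        exact (mul_le_mul_of_nonneg_right hK2 (by positivity)).trans h5)
      refine Dom_mono h4 le_rfl (le_of_eq ?_) le_rfl (by positivity)
      field_simp
      ring
    · rw [hnew]
      have h4 : c0 * (a : ℝ) ≤ 0.21 * ρ := mul_le_mul hc2 haρ ha0 (by norm_num)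
      linarith
    · rw [hnew]
      apply le_max_of_le_right
      have h3 : ρ ≤ 0.95 ^ s * L := by
        rcases le_max_iff.1 h2 with h4 | h4
        · linarith
        · exact h4
      rw [pow_succ]
      have h4 : 0.2 * (a : ℝ) ≤ c0 * a := mul_le_mul_of_nonneg_right hc1 ha0
      set Q : ℝ := 0.95 ^ s * L with hQ
      have h5 : (0.95 : ℝ) ^ s * 0.95 * L = 0.95 * Q := by rw [hQ]; ring
      rw [h5]
      linarith

theorem Cl_all {ε : ℝ} (hε : 0 < ε) (hε1 : ε ≤ 1) (s : ℕ) : Cl ε s := by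
  induction s with
  | zero => exact Cl_zero hε1
  | succ s ih => exact Cl_succ hε hε1 ih

/-- THE LAW OF THE MEMBERS OF A SHORT INTERVAL AT THE TIME WHEN THE INTERVAL HAS SHRUNK -/
theorem dom_iter {ε η γ : ℝ} (hε : 0 < ε) (hε1 : ε ≤ 1) (hη : 0 < η) (hγ : 0 < γ) :
    ∃ C : ℝ, 1 ≤ C ∧ ∃ L₀ : ℕ, ∀ L : ℕ, L₀ ≤ L → ∃ (t : ℕ) (g : ℝ), 0 ≤ g ∧ g ≤ γ * L ∧
      Dom t g C η (2 ^ L) ∧ ε / 3 * L ≤ L - c0 * t ∧ L - c0 * t ≤ ε * L ∧ (t : ℝ) ≤ 5 * L := by
  obtain ⟨s, hs⟩ := exists_pow_lt_of_lt_one hε (by norm_num : (0.95 : ℝ) < 1)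
  obtain ⟨C, hC, L₀, h⟩ := Cl_all hε hε1 s η γ hη hγ
  refine ⟨C, hC, L₀, fun L hL => ?_⟩
  obtain ⟨t, g, h1, h2, h3, h4, h5⟩ := h L hL
  have hL0 : (0 : ℝ) ≤ L := Nat.cast_nonneg _
  refine ⟨t, g, h1, h2, h3, h4, ?_, ?_⟩
  · refine h5.trans (max_le le_rfl ?_)
    exact mul_le_mul_of_nonneg_right hs.le hL0
  · have := c0_ge
    have ht : (0 : ℝ) ≤ t := Nat.cast_nonneg _
    have : 0 ≤ ε / 3 * L := by positivity
    nlinarith

end Pool.Agent.K1H87.PR
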