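import Mathlib
import Pool.Agent.H33.G.R_pool_sql_team_seeded_efc1946e.K1H87.PR.Iter
import Pool.Agent.H33.G.R_pool_sql_team_seeded_efc1946e.K1H87.PR.Blk

/-! Combination of the quenched and of the annealed parts. -/

set_option autoImplicit false

namespace Pool.Agent.K1H87.PR

open Finset
open Pool.Agent.H499R2.CO (Tz)
open Pool.Agent.W38.CR

/-- `M` and `z` have not merged after `B` steps -/
noncomputable def nm (B : ℕ) (M z : ℤ) : ℝ := if (Tz 1)^[B] M ≠ (Tz 1)^[B] z then 1 else 0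

theorem nm_mem (B : ℕ) (M z : ℤ) : 0 ≤ nm B M z ∧ nm B M z ≤ 1 := by
  unfold nm; split_ifs <;> norm_num

/-- members of an image window as forms -/
theorem nm_sum_le {s : ℤ} {k B j : ℕ} {κ : ℝ} (hκ : 0 < κ) {z : ℤ} (hz : z ∈ win (blk s k κ) κ) :
    ∑ M ∈ win (blk s k (3 ^ j * κ)) (3 ^ j * κ), nm B M z ≤
      ∑ r ∈ Icc (-⌊3 ^ j * κ⌋) ⌊3 ^ j * κ⌋, nq (fl (lz B z) (0, 0)) (fl (lz B z) (j, r)) := by
  classical
  have hinj : Set.InjOn (fun M : ℤ => M - 3 ^ j * z) (win (blk s k (3 ^ j * κ)) (3 ^ j * κ) : Set ℤ) := by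
    intro a _ b _ h
    dsimp only at h
    linarith
  have h1 : ∑ M ∈ win (blk s k (3 ^ j * κ)) (3 ^ j * κ), nm B M z =
      ∑ r ∈ (win (blk s k (3 ^ j * κ)) (3 ^ j * κ)).image (fun M : ℤ => M - 3 ^ j * z), nm B (3 ^ j * z + r) z := by
    rw [sum_image hinj]
    apply sum_congr rfl
    intro M _
    congr 1
    ring
  rw [h1]
  have h2 : ∀ r, nm B (3 ^ j * z + r) z ≤ nq (fl (lz B z) (0, 0)) (fl (lz B z) (j, r)) := by
    intro r
    unfold nm
    split_ifs with h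
    · rw [merged_of h]
    · exact nq_nonneg _ _
  refine (sum_le_sum fun r _ => h2 r).trans ?_
  apply sum_le_sum_of_subset_of_nonneg
  · intro r hr
    rw [mem_image] at hr
    obtain ⟨M, hM, rfl⟩ := hr
    rw [mem_win] at hM hz
    rw [← blk_mul] at hM
    have h3 : (0 : ℝ) < 3 ^ j := by positivity
    have h4 := mul_le_mul_of_nonneg_left hz.1 h3.le
    have h5 := mul_lt_mul_of_pos_left hz.2 h3
    rw [mem_Icc, neg_le, Int.le_floor, Int.le_floor]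
    push_cast
    constructor
    · linarith [hM.1]
    · linarith [hM.2]
  · intro r _ _; exact nq_nonneg _ _

theorem bad_sum {s : ℤ} {K₀ t B L o_b lam : ℕ} {x κ η' : ℝ} {E : List Bool → ℝ} (hE : ∀ l, 0 ≤ E l)
    (hK : 1 ≤ K₀) (hκ : κ = 3 ^ o_b / 2 ^ t * 2 ^ L) (hκ1 : 1 ≤ κ) (hB : (2 : ℝ) ^ B ≤ K₀ * κ)
    (hη : 0 ≤ η') (ho : ∀ o : ℕ, |(o : ℝ) - t / 2| ≤ x → o_b + lam ≤ o ∧ o ≤ o_b + 3 * lam)
    (hav : ∀ (j : ℕ) (r : ℤ), lam ≤ j → j ≤ 3 * lam → |(r : ℝ)| ≤ 3 ^ j * κ →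
      av B (fun l => E l * nq (fl l (0, 0)) (fl l (j, r))) ≤ η') :
    ∑ k ∈ Ico K₀ (2 * K₀), ∑ z ∈ win (blk s k κ) κ,
      E (lz B z) * EB t (RR t x (blk s k (2 ^ L)) (2 ^ L) (fun _ M => nm B M z)) ≤
      6 * 2 ^ L * (K₀ * κ) * η' := by
  have hK0 : (0 : ℝ) < K₀ := by exact_mod_cast hK
  have hκ0 : 0 < κ := by linarith
  have hZ : 0 < K₀ * κ := by positivity
  have e1 : ∑ k ∈ Ico K₀ (2 * K₀), ∑ z ∈ win (blk s k κ) κ,
      E (lz B z) * EB t (RR t x (blk s k (2 ^ L)) (2 ^ L) (fun _ M => nm B M z)) =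
      EB t (fun o => ∑ k ∈ Ico K₀ (2 * K₀), ∑ z ∈ win (blk s k κ) κ,
        E (lz B z) * RR t x (blk s k (2 ^ L)) (2 ^ L) (fun _ M => nm B M z) o) := by
    rw [EB_sum]
    apply sum_congr rfl
    intro k _
    rw [EB_sum]
    apply sum_congr rfl
    intro z _
    rw [EB_smul]
  rw [e1]
  have key : ∀ o, o ≤ t → ∑ k ∈ Ico K₀ (2 * K₀), ∑ z ∈ win (blk s k κ) κ,
        E (lz B z) * RR t x (blk s k (2 ^ L)) (2 ^ L) (fun _ M => nm B M z) o ≤
      6 * 2 ^ L * (K₀ * κ) * η' := by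
    intro o _
    by_cases hox : |(o : ℝ) - t / 2| ≤ x
    · obtain ⟨ho1, ho2⟩ := ho o hox
      obtain ⟨j, rfl⟩ := Nat.exists_eq_add_of_le (show o_b ≤ o by omega)
      have hlen : (3 : ℝ) ^ (o_b + j) / 2 ^ t * 2 ^ L = 3 ^ j * κ := by
        rw [hκ, pow_add]; ring
      have hR0 : 0 < 3 ^ j * κ := by positivity
      have hR1 : 1 ≤ 3 ^ j * κ := one_le_mul_of_one_le_of_one_le (one_le_pow₀ (by norm_num)) hκ1
      set R : ℤ := ⌊3 ^ j * κ⌋ with hR
      have hRle : (R : ℝ) ≤ 3 ^ j * κ := Int.floor_le _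
      have h1 : ∀ k ∈ Ico K₀ (2 * K₀), ∀ z ∈ win (blk s k κ) κ,
          E (lz B z) * RR t x (blk s k (2 ^ L)) (2 ^ L) (fun _ M => nm B M z) (o_b + j) ≤
          (2 ^ t / 3 ^ (o_b + j)) * ∑ r ∈ Icc (-R) R, E (lz B z) *
            nq (fl (lz B z) (0, 0)) (fl (lz B z) (j, r)) := by
        intro k _ z hz
        unfold RR
        rw [if_pos hox, blk_mul, hlen]
        have h2 := nm_sum_le (B := B) (j := j) hκ0 hz
        rw [← mul_sum, ← mul_assoc, ← mul_assoc, mul_comm (E (lz B z))]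
        exact mul_le_mul_of_nonneg_left h2 (mul_nonneg (by positivity) (hE _))
      refine (sum_le_sum fun k hk => sum_le_sum fun z hz => h1 k hk z hz).trans ?_
      rw [sum_blk hK hκ0 (fun z => (2 ^ t / 3 ^ (o_b + j)) * ∑ r ∈ Icc (-R) R, E (lz B z) *
            nq (fl (lz B z) (0, 0)) (fl (lz B z) (j, r))), ← mul_sum, sum_comm]
      have h3 : ∀ r ∈ Icc (-R) R, ∑ z ∈ win (blk s 1 (K₀ * κ)) (K₀ * κ), E (lz B z) *
            nq (fl (lz B z) (0, 0)) (fl (lz B z) (j, r)) ≤ 2 * (K₀ * κ) * η' := by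
        intro r hr
        rw [mem_Icc] at hr
        have h4 := sum_lz (X := blk s 1 (K₀ * κ)) hZ.le B
          (F := fun l => E l * nq (fl l (0, 0)) (fl l (j, r))) (fun l => mul_nonneg (hE l) (nq_nonneg _ _))
        refine h4.trans ?_
        have h5 : |(r : ℝ)| ≤ 3 ^ j * κ := by
          refine le_trans ?_ hRle
          rw [abs_le]
          constructor
          · exact_mod_cast hr.1
          · exact_mod_cast hr.2
        have h6 := hav j r (by omega) (by omega) h5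
        have h2B : (0 : ℝ) < 2 ^ B := by positivity
        calc (K₀ * κ / 2 ^ B + 1) * (2 ^ B * av B (fun l => E l * nq (fl l (0, 0)) (fl l (j, r))))
            = (K₀ * κ + 2 ^ B) * av B (fun l => E l * nq (fl l (0, 0)) (fl l (j, r))) := by
              field_simp
          _ ≤ (K₀ * κ + 2 ^ B) * η' := mul_le_mul_of_nonneg_left h6 (by positivity)
          _ ≤ 2 * (K₀ * κ) * η' := mul_le_mul_of_nonneg_right (by linarith) hη
      have h7 := sum_le_sum h3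
      rw [sum_const, Int.card_Icc, nsmul_eq_mul] at h7
      have hR0' : 0 ≤ R := Int.floor_nonneg.2 hR0.le
      have h8 : (((R + 1 - -R).toNat : ℕ) : ℝ) ≤ 3 * (3 ^ j * κ) := by
        have h9 : (((R + 1 - -R).toNat : ℕ) : ℤ) = 2 * R + 1 := by omega
        have h10 : (((R + 1 - -R).toNat : ℕ) : ℝ) = 2 * R + 1 := by exact_mod_cast h9
        rw [h10]; linarith
      have h11 : (0 : ℝ) < 2 ^ t / 3 ^ (o_b + j) := by positivity
      calc 2 ^ t / 3 ^ (o_b + j) * ∑ r ∈ Icc (-R) R, ∑ z ∈ win (blk s 1 (K₀ * κ)) (K₀ * κ), E (lz B z) *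
              nq (fl (lz B z) (0, 0)) (fl (lz B z) (j, r))
          ≤ 2 ^ t / 3 ^ (o_b + j) * (3 * (3 ^ j * κ) * (2 * (K₀ * κ) * η')) := by
            apply mul_le_mul_of_nonneg_left _ h11.le
            exact h7.trans (mul_le_mul_of_nonneg_right h8 (by positivity))
        _ = 6 * 2 ^ L * (K₀ * κ) * η' := by
            rw [← hlen]; field_simp; ring
    · have h0 : ∀ k ∈ Ico K₀ (2 * K₀), ∑ z ∈ win (blk s k κ) κ,
          E (lz B z) * RR t x (blk s k (2 ^ L)) (2 ^ L) (fun _ M => nm B M z) o = 0 := by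
        intro k _
        apply sum_eq_zero
        intro z _
        unfold RR
        rw [if_neg hox, mul_zero]
      rw [sum_eq_zero h0]
      positivity
  refine (EB_mono t (g := fun _ => 6 * 2 ^ L * (K₀ * κ) * η') key).trans ?_
  rw [EB_const]

/-- the good blocks -/
theorem good_many {s : ℤ} {K₀ t B L o_b lam : ℕ} {x κ η₁ δ ε₂ e : ℝ} {E : List Bool → ℝ}
    (hE : ∀ l, 0 ≤ E l ∧ E l ≤ 1) (he : e = av B E) (hK : 1 ≤ K₀) (hκ : κ = 3 ^ o_b / 2 ^ t * 2 ^ L)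
    (hκ1 : 1 ≤ κ) (hB : (2 : ℝ) ^ B ≤ K₀ * κ) (hη : 0 ≤ η₁) (hε₂ : 0 < ε₂) (hηε : 24 * η₁ ≤ δ * ε₂)
    (ho : ∀ o : ℕ, |(o : ℝ) - t / 2| ≤ x → o_b + lam ≤ o ∧ o ≤ o_b + 3 * lam)
    (hav : ∀ (j : ℕ) (r : ℤ), lam ≤ j → j ≤ 3 * lam → |(r : ℝ)| ≤ 3 ^ j * κ →
      av B (fun l => E l * nq (fl l (0, 0)) (fl l (j, r))) ≤ η₁ * e) {S : Set ℤ}
    (hS : ∀ a : ℤ, δ / 2 * (K₀ * κ / 2 ^ B) ≤
      ({n ∈ (win (blk s 1 (K₀ * κ)) (K₀ * κ) : Set ℤ) | n ∈ S ∧ (2 : ℤ) ^ B ∣ n - a}.ncard : ℝ)) :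
    δ / 8 * e * K₀ ≤ ({k ∈ (Ico K₀ (2 * K₀) : Set ℕ) | ∃ z ∈ win (blk s k κ) κ, z ∈ S ∧
      EB t (RR t x (blk s k (2 ^ L)) (2 ^ L) (fun _ M => nm B M z)) ≤ ε₂ * 2 ^ L}.ncard : ℝ) := by
  classical
  have hK0 : (0 : ℝ) < K₀ := by exact_mod_cast hK
  have hκ0 : 0 < κ := by linarith
  have hZ : 0 < K₀ * κ := by positivity
  have he0 : 0 ≤ e := by rw [he]; exact av_nonneg fun l _ => (hE l).1
  have h2L : (0 : ℝ) < 2 ^ L := by positivity
  set TT : ℕ → ℤ → ℝ := fun k z => EB t (RR t x (blk s k (2 ^ L)) (2 ^ L) (fun _ M => nm B M z)) with hTT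
  have hTT0 : ∀ k z, 0 ≤ TT k z := fun k z => EB_nonneg fun o _ => RR_nonneg (fun _ M => (nm_mem B M z).1) o
  set gd : ℕ → Prop := fun k => ∃ z ∈ win (blk s k κ) κ, z ∈ S ∧ TT k z ≤ ε₂ * 2 ^ L with hgd
  have h1 := bad_sum (s := s) (fun l => (hE l).1) hK hκ hκ1 hB (mul_nonneg hη he0) ho hav
  have h2 := sum_lz_ge (X := blk s 1 (K₀ * κ)) (H := K₀ * κ) B (F := E) (fun l => (hE l).1) hS
  rw [← sum_blk hK hκ0 (fun z => if z ∈ S then E (lz B z) else 0), ← he] at h2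
  have e2 : δ / 2 * (K₀ * κ / 2 ^ B) * (2 ^ B * e) = δ / 2 * (K₀ * κ) * e := by field_simp
  rw [e2] at h2
  have h3 : ∀ k ∈ Ico K₀ (2 * K₀), ∑ z ∈ win (blk s k κ) κ, ((if z ∈ S then E (lz B z) else 0) -
      E (lz B z) * TT k z / (ε₂ * 2 ^ L)) ≤ if gd k then 2 * κ else 0 := by
    intro k _
    have h4 : ∀ z ∈ win (blk s k κ) κ, (if z ∈ S then E (lz B z) else 0) -
        E (lz B z) * TT k z / (ε₂ * 2 ^ L) ≤ if z ∈ S ∧ TT k z ≤ ε₂ * 2 ^ L then 1 else 0 := by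
      intro z _
      obtain ⟨a1, a2⟩ := hE (lz B z)
      have a3 := hTT0 k z
      have a4 : 0 ≤ E (lz B z) * TT k z / (ε₂ * 2 ^ L) := by positivity
      by_cases hz : z ∈ S
      · rw [if_pos hz]
        by_cases hT : TT k z ≤ ε₂ * 2 ^ L
        · rw [if_pos ⟨hz, hT⟩]; linarith
        · rw [if_neg (fun hc => hT hc.2)]
          push Not at hT
          have h5 : E (lz B z) ≤ E (lz B z) * TT k z / (ε₂ * 2 ^ L) := by
            rw [le_div_iff₀ (by positivity)]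
            exact mul_le_mul_of_nonneg_left hT.le a1
          linarith
      · rw [if_neg hz, if_neg (fun hc => hz hc.1)]; linarith
    refine (sum_le_sum h4).trans ?_
    rw [sum_boole]
    split_ifs with hg
    · have h5 : (((win (blk s k κ) κ).filter (fun z => z ∈ S ∧ TT k z ≤ ε₂ * 2 ^ L)).card : ℝ) ≤
          ((win (blk s k κ) κ).card : ℝ) := by exact_mod_cast card_le_card (filter_subset _ _)
      have h6 := win_card_le (X := blk s k κ) hκ0.le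
      linarith
    · rw [filter_false_of_mem]
      · simp
      · intro z hz hc
        exact hg ⟨z, hz, hc.1, hc.2⟩
  have h4 := sum_le_sum h3
  have h5 : ∑ k ∈ Ico K₀ (2 * K₀), ∑ z ∈ win (blk s k κ) κ, ((if z ∈ S then E (lz B z) else 0) -
      E (lz B z) * TT k z / (ε₂ * 2 ^ L)) =
      (∑ k ∈ Ico K₀ (2 * K₀), ∑ z ∈ win (blk s k κ) κ, (if z ∈ S then E (lz B z) else 0)) -
      (∑ k ∈ Ico K₀ (2 * K₀), ∑ z ∈ win (blk s k κ) κ, E (lz B z) * TT k z) / (ε₂ * 2 ^ L) := by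
    rw [sum_div, ← sum_sub_distrib]
    apply sum_congr rfl
    intro k _
    rw [sum_div, ← sum_sub_distrib]
  rw [h5, ← sum_filter, sum_const, nsmul_eq_mul] at h4
  have h6 : (∑ k ∈ Ico K₀ (2 * K₀), ∑ z ∈ win (blk s k κ) κ, E (lz B z) * TT k z) / (ε₂ * 2 ^ L) ≤
      δ / 4 * (K₀ * κ) * e := by
    rw [div_le_iff₀ (by positivity)]
    refine h1.trans ?_
    have h7 := mul_le_mul_of_nonneg_right hηε (show 0 ≤ (K₀ * κ) * e * 2 ^ L by positivity)
    linarith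
  have h7 : (((Ico K₀ (2 * K₀)).filter gd).card : ℝ) =
      ({k ∈ (Ico K₀ (2 * K₀) : Set ℕ) | ∃ z ∈ win (blk s k κ) κ, z ∈ S ∧ TT k z ≤ ε₂ * 2 ^ L}.ncard : ℝ) := by
    rw [← Set.ncard_coe_finset]
    congr 2
    ext k
    rw [mem_coe, mem_filter]
    simp only [hgd]
    constructor
    · rintro ⟨q1, q2⟩; exact ⟨mem_coe.2 q1, q2⟩
    · rintro ⟨q1, q2⟩; exact ⟨mem_coe.1 q1, q2⟩
  rw [← h7]
  have h8 : δ / 4 * (K₀ * κ) * e ≤ (((Ico K₀ (2 * K₀)).filter gd).card : ℝ) * (2 * κ) := by linarith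
  have h9 : (δ / 8 * e * K₀) * (2 * κ) ≤ (((Ico K₀ (2 * K₀)).filter gd).card : ℝ) * (2 * κ) := by
    refine le_trans (le_of_eq ?_) h8
    ring
  exact le_of_mul_le_mul_right h9 (by positivity)

theorem inv_iter' {S : Set ℤ} (hS : ∀ x, x ∈ S ↔ Tz 1 x ∈ S) (t : ℕ) (x : ℤ) :
    x ∈ S ↔ (Tz 1)^[t] x ∈ S := by
  induction t with
  | zero => rfl
  | succ t ih => rw [Function.iterate_succ_apply', ← hS, ih]

/-- a good block is nearly contained in the set -/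
theorem good_block {t B L : ℕ} {g x C η ε₂ X : ℝ} (hC : 0 ≤ C) (hx : 0 < x) (hD : Dom t g C η (2 ^ L))
    (hlen : ∀ o : ℕ, |(o : ℝ) - t / 2| ≤ g → 1 ≤ (3 : ℝ) ^ o / 2 ^ t * 2 ^ L) {S : Set ℤ}
    (hS : ∀ x, x ∈ S ↔ Tz 1 x ∈ S) {z : ℤ} (hz : z ∈ S)
    (hT : EB t (RR t x X (2 ^ L) (fun _ M => nm B M z)) ≤ ε₂ * 2 ^ L) :
    ({n ∈ (win X (2 ^ L) : Set ℤ) | n ∉ S}.ncard : ℝ) ≤ (C * (ε₂ + 2 * (t / (4 * x ^ 2))) + η) * 2 ^ L := by
  classical
  have h2L : (0 : ℝ) < 2 ^ L := by positivity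
  have h1 := hD X (2 ^ L) le_rfl (fun _ M => nm B M z) (fun _ M => nm_mem B M z)
  have h2 : ({n ∈ (win X (2 ^ L) : Set ℤ) | n ∉ S}.ncard : ℝ) ≤
      ∑ n ∈ win X (2 ^ L), nm B ((Tz 1)^[t] n) z := by
    have e : {n ∈ (win X (2 ^ L) : Set ℤ) | n ∉ S} = (((win X (2 ^ L)).filter (fun n => n ∉ S) : Finset ℤ) : Set ℤ) := by
      ext n; rw [mem_coe, mem_filter]; rfl
    rw [e, Set.ncard_coe_finset, ← sum_boole]
    apply sum_le_sum
    intro n _
    by_cases hn : n ∈ S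
    · rw [if_neg (not_not.2 hn)]
      exact (nm_mem _ _ _).1
    · rw [if_pos hn]
      unfold nm
      rw [if_pos]
      intro hc
      apply hn
      rw [inv_iter' hS t n, inv_iter' hS B, hc, ← inv_iter' hS B]
      exact hz
  have h3 : EB t (RR t g X (2 ^ L) (fun _ M => nm B M z)) ≤ (ε₂ + 2 * (t / (4 * x ^ 2))) * 2 ^ L := by
    have h4 : ∀ o, o ≤ t → RR t g X (2 ^ L) (fun _ M => nm B M z) o ≤
        RR t x X (2 ^ L) (fun _ M => nm B M z) o + (2 * 2 ^ L) * (if x < |(o : ℝ) - t / 2| then 1 else 0) := by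
      intro o _
      have hnn := RR_nonneg (t := t) (g := x) (X := X) (H := 2 ^ L) (ψ := fun _ M => nm B M z)
        (fun _ M => (nm_mem B M z).1) o
      by_cases hox : |(o : ℝ) - t / 2| ≤ x
      · rw [if_neg (not_lt.2 hox), mul_zero, add_zero]
        by_cases hog : |(o : ℝ) - t / 2| ≤ g
        · unfold RR
          rw [if_pos hog, if_pos hox]
        · refine le_trans (le_of_eq ?_) hnn
          unfold RR
          rw [if_neg hog]
      · rw [if_pos (not_le.1 hox), mul_one]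
        by_cases hog : |(o : ℝ) - t / 2| ≤ g
        · have h5 : RR t g X (2 ^ L) (fun _ M => nm B M z) o ≤ 2 * 2 ^ L := by
            unfold RR
            rw [if_pos hog]
            have h6 := hlen o hog
            have h7 := win_card_le (X := 3 ^ o / 2 ^ t * X) (H := 3 ^ o / 2 ^ t * 2 ^ L) (by linarith)
            have h8 : ∑ M ∈ win (3 ^ o / 2 ^ t * X) (3 ^ o / 2 ^ t * 2 ^ L), nm B M z ≤
                2 * (3 ^ o / 2 ^ t * 2 ^ L) := by
              calc ∑ M ∈ win (3 ^ o / 2 ^ t * X) (3 ^ o / 2 ^ t * 2 ^ L), nm B M z ≤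
                    ∑ M ∈ win (3 ^ o / 2 ^ t * X) (3 ^ o / 2 ^ t * 2 ^ L), (1 : ℝ) :=
                    sum_le_sum fun M _ => (nm_mem B M z).2
                _ ≤ _ := by rw [sum_const, nsmul_eq_mul, mul_one]; linarith
            calc (2 : ℝ) ^ t / 3 ^ o * ∑ M ∈ win (3 ^ o / 2 ^ t * X) (3 ^ o / 2 ^ t * 2 ^ L), nm B M z
                ≤ 2 ^ t / 3 ^ o * (2 * (3 ^ o / 2 ^ t * 2 ^ L)) :=
                  mul_le_mul_of_nonneg_left h8 (by positivity)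
              _ = 2 * 2 ^ L := by field_simp
          linarith
        · have h5 : RR t g X (2 ^ L) (fun _ M => nm B M z) o = 0 := by
            unfold RR
            rw [if_neg hog]
          rw [h5]
          positivity
    refine (EB_mono t h4).trans ?_
    rw [EB_add, EB_smul]
    have h5 := EB_cheb t hx
    have h6 := mul_le_mul_of_nonneg_left h5 (show (0 : ℝ) ≤ 2 * 2 ^ L by positivity)
    linarith
  have h4 := mul_le_mul_of_nonneg_left h3 hC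
  refine h2.trans (h1.trans ?_)
  linarith

end Pool.Agent.K1H87.PR
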