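import Mathlib
import Pool.Agent.H33.G.R_pool_sql_team_seeded_efc1946e.K1H87.PR.Ann
import Pool.Agent.H33.G.R_pool_sql_team_seeded_efc1946e.K1H87.PR.Comb

/-! Invariant sets fill most of a positive proportion of the blocks of any length up to a fixed power. -/

set_option autoImplicit false

namespace Pool.Agent.K1H87.PR

open Finset Filter Topology
open Pool.Agent.H499R2.CO (Tz)
open Pool.Agent.W38.CR

/-- lower density at least `δ / 2` in all classes modulo `2 ^ B ≤ Z ^ c`, in the windows of size `Z ≥ Z₀` -/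
def LDP (s : ℤ) (S : Set ℤ) (δ c Z₀ : ℝ) : Prop :=
  ∀ Z : ℝ, Z₀ ≤ Z → ∀ B : ℕ, (2 : ℝ) ^ B ≤ Z ^ c → ∀ a : ℤ, δ / 2 * (Z / 2 ^ B) ≤
    ({n ∈ (win (blk s 1 Z) Z : Set ℤ) | n ∈ S ∧ (2 : ℤ) ^ B ∣ n - a}.ncard : ℝ)

theorem two_rpow_eq (y : ℝ) : (2 : ℝ) ^ y = Real.exp (Real.log 2 * y) := by
  rw [Real.rpow_def_of_pos (by norm_num)]

/-- SOLID BLOCKS -/
theorem solid_of {s : ℤ} {A εf δ c : ℝ} (hA : 0 < A) (hεf : 0 < εf) (hδ : 0 < δ) (hc : 0 < c) :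
    ∃ c' : ℝ, 0 < c' ∧ ∀ᶠ L : ℕ in atTop, ∀ (Z₀ : ℝ) (S : Set ℤ), (∀ x, x ∈ S ↔ Tz 1 x ∈ S) →
      LDP s S δ c Z₀ → ∀ K₀ : ℕ, 1 ≤ K₀ → (2 : ℝ) ^ L ≤ (K₀ : ℝ) ^ A → Z₀ ≤ K₀ →
      c' * K₀ ≤ ({k ∈ (Ico K₀ (2 * K₀) : Set ℕ) |
        ({n ∈ (win (blk s k (2 ^ L)) (2 ^ L) : Set ℤ) | n ∉ S}.ncard : ℝ) ≤ εf * 2 ^ L}.ncard : ℝ) := by
  set c₁ : ℝ := min 1 (min (c / A) (1 / A)) with hc₁
  have hc₁0 : 0 < c₁ := by positivity
  have hc₁1 : c₁ ≤ 1 := min_le_left _ _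
  have hc₁c : c₁ * A ≤ c := by
    have : c₁ ≤ c / A := (min_le_right _ _).trans (min_le_left _ _)
    rwa [le_div_iff₀ hA] at this
  have hc₁A : c₁ * A ≤ 1 := by
    have : c₁ ≤ 1 / A := (min_le_right _ _).trans (min_le_right _ _)
    rwa [le_div_iff₀ hA] at this
  set ε : ℝ := c₁ / 120 with hε
  have hε0 : 0 < ε := by positivity
  have hε1 : ε ≤ 1 / 120 := by rw [hε]; linarith
  obtain ⟨C, hC, Ld, hLd⟩ := dom_iter (ε := ε) (η := εf / 4) (γ := ε / 10) hε0 (by linarith)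
    (by positivity) (by positivity)
  have hC0 : 0 < C := by linarith
  set ε₂ : ℝ := εf / (4 * C) with hε₂
  have hε₂0 : 0 < ε₂ := by positivity
  set η₁ : ℝ := δ * ε₂ / 24 with hη₁
  have hη₁0 : 0 < η₁ := by positivity
  set K : ℝ := 1 + 6 / η₁ + 10 * C / εf with hK
  have p1 : 0 < 6 / η₁ := by positivity
  have p2 : 0 < 10 * C / εf := by positivity
  have hK1 : 1 ≤ K := by linarith
  have hKsq : K ≤ K ^ 2 := le_self_pow₀ hK1 (by norm_num)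
  have hK6 : 6 ≤ η₁ * K ^ 2 := by
    have h1 : 6 / η₁ ≤ K ^ 2 := by linarith
    rw [div_le_iff₀ hη₁0] at h1
    linarith
  have hK10 : 10 * C ≤ εf * K ^ 2 := by
    have h1 : 10 * C / εf ≤ K ^ 2 := by linarith
    rw [div_le_iff₀ hεf] at h1
    linarith
  obtain ⟨e₀, he₀, hann⟩ := annealed (c₁ := c₁) (ε := ε) (K := K) (η₁ := η₁) hc₁0 hc₁1 hε0 le_rfl hK1
    hη₁0 hK6
  refine ⟨δ / 8 * e₀, by positivity, ?_⟩
  have hbig : ∀ᶠ L : ℕ in atTop, 20 * (K + 2) / ε + 10 ≤ √ (L : ℝ) := by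
    have h2 : Tendsto (fun L : ℕ => √ (L : ℝ)) atTop atTop :=
      Real.tendsto_sqrt_atTop.comp tendsto_natCast_atTop_atTop
    exact h2.eventually_ge_atTop _
  filter_upwards [hann, hbig, eventually_ge_atTop Ld] with L hann' hL2 hLLd
  intro Z₀ S hS hLDP K₀ hK₀ hLK hZ₀
  obtain ⟨b, t', n, hB1, he, hav⟩ := hann'
  obtain ⟨t, g, hg0, hg, hD, hρ1, hρ2, ht5⟩ := hLd L hLLd
  have hLn : (0 : ℝ) ≤ L := Nat.cast_nonneg _
  set x' : ℝ := √ (L : ℝ) with hx'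
  have hxx : x' ^ 2 = L := Real.sq_sqrt hLn
  have hx'10 : 10 ≤ x' := by
    have : 0 ≤ 20 * (K + 2) / ε := by positivity
    linarith
  have hx'0 : 0 < x' := by linarith
  have hKx : 20 * (K + 2) ≤ ε * x' := by
    have : 20 * (K + 2) / ε ≤ x' := by linarith
    rw [div_le_iff₀ hε0] at this
    linarith
  obtain ⟨lam, hlam⟩ : ∃ lam : ℕ, lam = ⌈K * x'⌉₊ := ⟨_, rfl⟩
  rw [← hlam] at he hav
  have l1 : K * x' ≤ lam := by rw [hlam]; exact Nat.le_ceil _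
  have l2 : (lam : ℝ) ≤ K * x' + 1 := by
    rw [hlam]; exact (Nat.ceil_lt_add_one (by positivity)).le
  -- `lam` is small compared with `ε L`
  have l3 : 20 * ((lam : ℝ) + 1) ≤ ε * L := by
    have h1 : 20 * (K + 2) * x' ≤ ε * x' * x' := mul_le_mul_of_nonneg_right hKx hx'0.le
    have h2 : ε * x' * x' = ε * L := by rw [← hxx]; ring
    nlinarith
  have hεL : ε * L ≤ L / 120 := by
    have := mul_le_mul_of_nonneg_right hε1 hLn
    linarith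
  have hc01 := c0_ge
  have hc02 := c0_le
  have htn : (0 : ℝ) ≤ t := Nat.cast_nonneg _
  have ht4 : 4 * (L : ℝ) ≤ t := by
    have h1 : c0 * t ≤ 0.21 * t := mul_le_mul_of_nonneg_right hc02 htn
    linarith
  have hob : 4 * lam + 2 ≤ t := by
    have : ((4 * lam + 2 : ℕ) : ℝ) ≤ t := by push_cast; linarith
    exact_mod_cast this
  obtain ⟨o_b, hob'⟩ : ∃ o_b : ℕ, o_b = t / 2 - 2 * lam := ⟨_, rfl⟩
  obtain ⟨κ, hκ⟩ : ∃ κ : ℝ, κ = 3 ^ o_b / 2 ^ t * 2 ^ L := ⟨_, rfl⟩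
  have hobR1 : (o_b : ℝ) ≤ t / 2 := by
    have : 2 * o_b ≤ t := by omega
    have h' : (2 : ℝ) * o_b ≤ t := by exact_mod_cast this
    linarith
  have hobR2 : (t : ℝ) / 2 - (2 * lam + 1) ≤ o_b := by
    have : t ≤ 2 * o_b + 4 * lam + 2 := by omega
    have h' : (t : ℝ) ≤ 2 * o_b + 4 * lam + 2 := by exact_mod_cast this
    linarith
  have hκ1 : 1 ≤ κ := by
    rw [hκ]
    have h1 : |(o_b : ℝ) - t / 2| ≤ 2 * lam + 1 := by
      rw [abs_le]; constructor <;> linarith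
    refine le_trans ?_ (len_ge h1)
    rw [Real.one_le_exp_iff]
    apply mul_nonneg log2_pos.le
    linarith
  have hκ2 : κ ≤ 2 ^ (ε * L) := by
    rw [hκ, len_eq, two_rpow_eq]
    apply Real.exp_le_exp.2
    have h1 : Real.log 3 * ((o_b : ℝ) - t / 2) ≤ 0 :=
      mul_nonpos_of_nonneg_of_nonpos (Real.log_nonneg (by norm_num)) (by linarith)
    have h2 := mul_le_mul_of_nonneg_left hρ2 log2_pos.le
    linarith
  obtain ⟨B, hB⟩ : ∃ B : ℕ, B = b + (t' + n) := ⟨_, rfl⟩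
  rw [← hB] at hB1 hav
  have hK₀R : (1 : ℝ) ≤ K₀ := by exact_mod_cast hK₀
  have hBK : ∀ c'' : ℝ, c₁ * A ≤ c'' → (2 : ℝ) ^ B ≤ (K₀ : ℝ) ^ c'' := by
    intro c'' hc''
    calc (2 : ℝ) ^ B = (2 : ℝ) ^ (B : ℝ) := (Real.rpow_natCast _ _).symm
      _ ≤ 2 ^ (c₁ * L) := Real.rpow_le_rpow_of_exponent_le (by norm_num) hB1
      _ = ((2 : ℝ) ^ L) ^ c₁ := by rw [mul_comm, Real.rpow_mul (by norm_num), Real.rpow_natCast]
      _ ≤ ((K₀ : ℝ) ^ A) ^ c₁ := Real.rpow_le_rpow (by positivity) hLK hc₁0.le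
      _ = (K₀ : ℝ) ^ (c₁ * A) := by rw [← Real.rpow_mul (by linarith), mul_comm]
      _ ≤ (K₀ : ℝ) ^ c'' := Real.rpow_le_rpow_of_exponent_le hK₀R hc''
  have hZ1 : (K₀ : ℝ) ≤ K₀ * κ := le_mul_of_one_le_right (by linarith) hκ1
  have hBZ : (2 : ℝ) ^ B ≤ K₀ * κ := by
    have := hBK 1 hc₁A
    rw [Real.rpow_one] at this
    linarith
  have hBZc : (2 : ℝ) ^ B ≤ (K₀ * κ) ^ c :=
    (hBK c hc₁c).trans (Real.rpow_le_rpow (by linarith) hZ1 hc.le)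
  have hx : 0 < K * x' := by positivity
  have ho : ∀ o : ℕ, |(o : ℝ) - t / 2| ≤ K * x' → o_b + lam ≤ o ∧ o ≤ o_b + 3 * lam := by
    intro o ho
    have h1 := abs_le.1 (ho.trans l1)
    have h2 : (t : ℝ) ≤ 2 * o + 2 * lam := by linarith [h1.1]
    have h3 : (2 : ℝ) * o ≤ t + 2 * lam := by linarith [h1.2]
    have h2' : t ≤ 2 * o + 2 * lam := by exact_mod_cast h2
    have h3' : 2 * o ≤ t + 2 * lam := by exact_mod_cast h3
    omega
  have heq : Hh 0 t' (4 * lam, 0) = av B (Ef b t' (4 * lam)) := by rw [hB, av_Ef]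
  rw [heq] at he hav
  have hgm := good_many (s := s) (K₀ := K₀) (t := t) (B := B) (L := L) (o_b := o_b) (lam := lam)
    (x := K * x') (κ := κ) (η₁ := η₁) (δ := δ) (ε₂ := ε₂) (E := Ef b t' (4 * lam))
    (fun l => ⟨Ef_nonneg _ _ _ _, Ef_le_one _ _ _ _⟩) rfl hK₀ hκ hκ1 hBZ hη₁0.le hε₂0
    (by rw [hη₁]; linarith) ho (fun j r hj1 hj2 hr => hav j r hj1 hj2
      (hr.trans (mul_le_mul_of_nonneg_left hκ2 (by positivity))))
    (hLDP (K₀ * κ) (hZ₀.trans hZ1) B hBZc)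
  have h1 : δ / 8 * e₀ * K₀ ≤ δ / 8 * av B (Ef b t' (4 * lam)) * K₀ := by
    apply mul_le_mul_of_nonneg_right _ (by linarith)
    exact mul_le_mul_of_nonneg_left he (by positivity)
  refine h1.trans (hgm.trans ?_)
  have hsub : {k ∈ (Ico K₀ (2 * K₀) : Set ℕ) | ∃ z ∈ win (blk s k κ) κ, z ∈ S ∧
      EB t (RR t (K * x') (blk s k (2 ^ L)) (2 ^ L) (fun _ M => nm B M z)) ≤ ε₂ * 2 ^ L} ⊆
      {k ∈ (Ico K₀ (2 * K₀) : Set ℕ) |
        ({n ∈ (win (blk s k (2 ^ L)) (2 ^ L) : Set ℤ) | n ∉ S}.ncard : ℝ) ≤ εf * 2 ^ L} := by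
    rintro k ⟨hk, z, _, hzS, hzT⟩
    refine ⟨hk, ?_⟩
    have h2 := good_block (t := t) (B := B) (L := L) (g := g) (x := K * x') (C := C) (η := εf / 4)
      (ε₂ := ε₂) (X := blk s k (2 ^ L)) hC0.le hx hD (by
        intro o ho'
        refine le_trans ?_ (len_ge ho')
        rw [Real.one_le_exp_iff]
        apply mul_nonneg log2_pos.le
        linarith) hS hzS hzT
    refine h2.trans ?_
    apply mul_le_mul_of_nonneg_right _ (by positivity)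
    have h3 : (t : ℝ) / (4 * (K * x') ^ 2) ≤ 5 / (4 * K ^ 2) := by
      have hLp : (0 : ℝ) < L := by rw [← hxx]; positivity
      rw [mul_pow, hxx, div_le_div_iff₀ (by positivity) (by positivity)]
      have := mul_le_mul_of_nonneg_right ht5 (show (0 : ℝ) ≤ 4 * K ^ 2 by positivity)
      linarith
    have h4 : C * ε₂ = εf / 4 := by rw [hε₂]; field_simp
    have h5 : C * (2 * (5 / (4 * K ^ 2))) ≤ εf / 4 := by
      have hK2 : 0 < K ^ 2 := by positivity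
      rw [show C * (2 * (5 / (4 * K ^ 2))) = 5 * C / (2 * K ^ 2) by field_simp; ring,
        div_le_div_iff₀ (by positivity) (by norm_num)]
      linarith
    have h6 := mul_le_mul_of_nonneg_left h3 (show (0 : ℝ) ≤ C * 2 by positivity)
    linarith
  have hfin : {k ∈ (Ico K₀ (2 * K₀) : Set ℕ) |
        ({n ∈ (win (blk s k (2 ^ L)) (2 ^ L) : Set ℤ) | n ∉ S}.ncard : ℝ) ≤ εf * 2 ^ L}.Finite :=
    Set.Finite.subset (Finset.finite_toSet (Ico K₀ (2 * K₀))) (fun k hk => hk.1)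
  exact_mod_cast Set.ncard_le_ncard hsub hfin

end Pool.Agent.K1H87.PR
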