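import Mathlib
import Pool.Agent.H33.G.R_pool_sql_team_seeded_efc1946e.K1H87.PR.Solid
import Pool.Agent.H33.G.R_seed8.H319R3.LV.LV6
import Pool.Agent.H33.G.R_seed8.W41.Dens

/-! Level of distribution modulo powers of two, uniformly in the invariant sets. -/

set_option autoImplicit false

namespace Pool.Agent.K1H87.PR

open Finset Filter Topology
open Pool.Agent.H499R2.CO (Tz)
open Pool.Agent.H499R2.ND (Inv HD wc mem_wc side_odd side_cop side_inv)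
open Pool.Agent.W41 (cF unif)
open Pool.Agent.H319R3.LV (window_prefix)

/-- windows and counting functions -/
theorem cF_le_wc (s : ℤ) (S : Set ℤ) (L : ℝ) :
    (cF s S (⌈2 * L⌉₊ - 1) : ℝ) ≤ cF s S (⌈L⌉₊ - 1) + (wc {x | s * x ∈ S} L (2 * L) 1 0).card := by
  classical
  unfold cF
  have hsub : ((Icc 1 (⌈2 * L⌉₊ - 1)).filter (fun m : ℕ => s * (m : ℤ) ∈ S)) ⊆
      ((Icc 1 (⌈L⌉₊ - 1)).filter (fun m : ℕ => s * (m : ℤ) ∈ S)) ∪
        (wc {x | s * x ∈ S} L (2 * L) 1 0).image Int.toNat := by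
    intro m hm
    rw [mem_filter, mem_Icc] at hm
    obtain ⟨⟨h1, h2⟩, h3⟩ := hm
    rw [mem_union]
    by_cases h4 : m ≤ ⌈L⌉₊ - 1
    · left
      rw [mem_filter, mem_Icc]
      exact ⟨⟨h1, h4⟩, h3⟩
    · right
      rw [mem_image]
      refine ⟨m, ?_, by simp⟩
      rw [mem_wc]
      have h5 : ⌈L⌉₊ ≤ m := by omega
      have h6 : m < ⌈2 * L⌉₊ := by omega
      refine ⟨⟨?_, ?_⟩, h3, one_dvd _⟩
      · have := Nat.ceil_le.1 h5
        exact_mod_cast this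
      · have := Nat.lt_ceil.1 h6
        exact_mod_cast this
  have h1 := (card_le_card hsub).trans (card_union_le _ _)
  have h2 : ((wc {x | s * x ∈ S} L (2 * L) 1 0).image Int.toNat).card ≤
      (wc {x | s * x ∈ S} L (2 * L) 1 0).card := card_image_le
  exact_mod_cast h1.trans (by omega)

/-- windows are transported to blocks -/
theorem wc_le_blk {s : ℤ} (hs : s = 1 ∨ s = -1) (S : Set ℤ) (Z : ℝ) (q a : ℤ) :
    ((wc {x | s * x ∈ S} Z (2 * Z) q (s * a)).card : ℝ) ≤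
      ({n ∈ (win (blk s 1 Z) Z : Set ℤ) | n ∈ S ∧ q ∣ n - a}.ncard : ℝ) + 1 := by
  classical
  have hss : ∀ x : ℤ, s * (s * x) = x := by
    intro x; rcases hs with rfl | rfl <;> ring
  set W := wc {x | s * x ∈ S} Z (2 * Z) q (s * a) with hW
  have h1 : W.card ≤ (W.erase ⌈Z⌉).card + 1 := by
    have := pred_card_le_card_erase (s := W) (a := ⌈Z⌉)
    omega
  have hfin : ({n ∈ (win (blk s 1 Z) Z : Set ℤ) | n ∈ S ∧ q ∣ n - a}).Finite :=
    (finite_toSet (win (blk s 1 Z) Z)).subset (fun x hx => hx.1)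
  have h2 : ((W.erase ⌈Z⌉).image (fun x => s * x) : Set ℤ) ⊆
      {n ∈ (win (blk s 1 Z) Z : Set ℤ) | n ∈ S ∧ q ∣ n - a} := by
    intro n hn
    rw [mem_coe, mem_image] at hn
    obtain ⟨x, hx, rfl⟩ := hn
    rw [mem_erase, hW, mem_wc] at hx
    obtain ⟨hx1, ⟨hx2, hx3⟩, hx4, hx5⟩ := hx
    have hx6 : ⌈Z⌉ < x := lt_of_le_of_ne (Int.ceil_le.2 hx2) (Ne.symm hx1)
    have hx7 : Z < x := by
      have h3 := Int.le_ceil Z
      have h4 : ((⌈Z⌉ : ℤ) : ℝ) < x := by exact_mod_cast hx6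
      linarith
    refine ⟨?_, hx4, ?_⟩
    · rw [mem_coe, mem_win]
      rcases hs with rfl | rfl
      · unfold blk; rw [if_pos rfl]; push_cast; constructor <;> linarith
      · unfold blk; rw [if_neg (by norm_num)]; push_cast; constructor <;> linarith
    · have : s * x - a = s * (x - s * a) := by rw [mul_sub, hss]
      rw [this]
      exact Dvd.dvd.mul_left hx5 s
  have h3 := Set.ncard_le_ncard h2 hfin
  rw [Set.ncard_coe_finset, card_image_of_injective] at h3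
  · have h4 : W.card ≤ ({n ∈ (win (blk s 1 Z) Z : Set ℤ) | n ∈ S ∧ q ∣ n - a}.ncard) + 1 :=
      h1.trans (Nat.add_le_add_right h3 1)
    have h5 : (W.card : ℝ) ≤ ((({n ∈ (win (blk s 1 Z) Z : Set ℤ) | n ∈ S ∧ q ∣ n - a}.ncard) + 1 : ℕ) : ℝ) :=
      Nat.cast_le.2 h4
    rw [Nat.cast_add, Nat.cast_one] at h5
    exact h5
  · intro x y hxy
    have h := congrArg (fun z => s * z) hxy
    simp only [hss] at h
    exact h

/-- LEVEL OF DISTRIBUTION, uniform in the set -/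
theorem ldp_unif {s : ℤ} (hs : s = 1 ∨ s = -1) : ∃ c : ℝ, 0 < c ∧ ∀ δ₀ : ℝ, 0 < δ₀ → ∃ Z₀ : ℝ,
    ∀ S : Set ℤ, (∀ x, x ∈ S ↔ Tz 1 x ∈ S) → ∀ δ : ℝ, HD s S δ → δ₀ ≤ δ → LDP s S δ₀ c Z₀ := by
  obtain ⟨K, hK, c₀, hc₀, hc₀1, h⟩ := window_prefix 1 (side_odd odd_one hs) (side_cop isCoprime_one_left hs)
  refine ⟨c₀, hc₀, fun δ₀ hδ₀ => ?_⟩
  obtain ⟨N0, hN0⟩ := unif hs (ε := δ₀ / 80) (by positivity)
  have t1 : Tendsto (fun Z : ℝ => Z ^ (1 - c₀)) atTop atTop := tendsto_rpow_atTop (by linarith)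
  have hev : ∀ᶠ Z : ℝ in atTop, (N0 : ℝ) + 80 + 80 / δ₀ ≤ Z ^ (1 - c₀) ∧ 4000 + 5 * K / δ₀ ≤ Real.log Z ∧ 1 ≤ Z := by
    filter_upwards [t1.eventually_ge_atTop _, Real.tendsto_log_atTop.eventually_ge_atTop _, eventually_ge_atTop 1]
      with Z h1 h2 h3
    exact ⟨h1, h2, h3⟩
  rw [eventually_atTop] at hev
  obtain ⟨Z₀, hZ₀⟩ := hev
  refine ⟨Z₀, fun S hS δ hδ hδδ Z hZ B hB a => ?_⟩
  obtain ⟨z1, z2, z3⟩ := hZ₀ Z hZ
  have hZ0 : 0 < Z := by linarith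
  have hδ' : 0 < 80 / δ₀ := by positivity
  have hK' : 0 < 5 * K / δ₀ := by positivity
  have hlog : 0 < Real.log Z := by linarith
  have h2B : (0 : ℝ) < 2 ^ B := by positivity
  have hSi : Inv 1 S := hS
  obtain ⟨L, hL1, hL2⟩ := h {x | s * x ∈ S} (side_inv odd_one hs hSi) Z hZ0 (by linarith) B 0 (by
    rw [pow_zero, mul_one]
    have h1 := Real.log_le_log h2B hB
    rwa [Real.log_rpow hZ0] at h1) (s * a)
  rw [pow_zero, mul_one, pow_zero, mul_one, pow_one] at hL2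
  set W : ℝ := Z / 2 ^ B with hW
  have hWge : Z ^ (1 - c₀) ≤ W := by
    rw [hW, le_div_iff₀ h2B]
    calc Z ^ (1 - c₀) * 2 ^ B ≤ Z ^ (1 - c₀) * Z ^ c₀ := mul_le_mul_of_nonneg_left hB (by positivity)
      _ = Z := by rw [← Real.rpow_add hZ0]; norm_num
  have hWL : W ≤ L := hL1
  have hN00 : (0 : ℝ) ≤ N0 := Nat.cast_nonneg _
  have hL80 : 80 ≤ L := by linarith
  have hLN0 : (N0 : ℝ) + 1 ≤ L := by linarith
  -- the density of the window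
  have hN1 : N0 ≤ ⌈L⌉₊ - 1 := by
    have h1 : (N0 : ℝ) + 1 ≤ ⌈L⌉₊ := hLN0.trans (Nat.le_ceil L)
    have h2 : N0 + 1 ≤ ⌈L⌉₊ := by exact_mod_cast h1
    omega
  have hN2 : N0 ≤ ⌈2 * L⌉₊ - 1 := by
    have h1 : ⌈L⌉₊ ≤ ⌈2 * L⌉₊ := Nat.ceil_mono (by linarith)
    omega
  have e1 : ((⌈L⌉₊ - 1 : ℕ) : ℝ) = (⌈L⌉₊ : ℝ) - 1 := by
    rw [Nat.cast_sub]
    · norm_num
    · exact Nat.one_le_ceil_iff.2 (by linarith)
  have e2 : ((⌈2 * L⌉₊ - 1 : ℕ) : ℝ) = (⌈2 * L⌉₊ : ℝ) - 1 := by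
    rw [Nat.cast_sub]
    · norm_num
    · exact Nat.one_le_ceil_iff.2 (by linarith)
  have b1 := Nat.le_ceil L
  have b2 := Nat.ceil_lt_add_one (show 0 ≤ L by linarith)
  have b3 := Nat.le_ceil (2 * L)
  have b4 := Nat.ceil_lt_add_one (show 0 ≤ 2 * L by linarith)
  have u1 := hN0 S hSi δ hδ _ hN1
  have u2 := hN0 S hSi δ hδ _ hN2
  have hcw := cF_le_wc s S L
  rw [e1] at u1
  rw [e2] at u2
  rw [abs_le] at u1 u2
  have hδ0 : 0 ≤ δ := by linarith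
  set m1 : ℝ := (⌈L⌉₊ : ℝ) - 1 with hm1
  set m2 : ℝ := (⌈2 * L⌉₊ : ℝ) - 1 with hm2
  have hdiff : L - 1 ≤ m2 - m1 := by rw [hm1, hm2]; linarith
  have hsum : m1 + m2 ≤ 3 * L := by rw [hm1, hm2]; linarith
  have hw1 : δ₀ * (L - 1) - δ₀ / 80 * (3 * L) ≤ ((wc {x | s * x ∈ S} L (2 * L) 1 0).card : ℝ) := by
    have g1 : δ₀ * (L - 1) ≤ δ * (m2 - m1) := by
      have h1 : δ₀ * (L - 1) ≤ δ * (L - 1) := mul_le_mul_of_nonneg_right hδδ (by linarith)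
      have h2 : δ * (L - 1) ≤ δ * (m2 - m1) := mul_le_mul_of_nonneg_left hdiff hδ0
      linarith
    have g2 : δ₀ / 80 * (m1 + m2) ≤ δ₀ / 80 * (3 * L) := mul_le_mul_of_nonneg_left hsum (by positivity)
    nlinarith [u1.2, u2.1]
  have hL0 : 0 < L := by linarith
  have hw2 : 95 / 100 * δ₀ ≤ ((wc {x | s * x ∈ S} L (2 * L) 1 0).card : ℝ) / L := by
    rw [le_div_iff₀ hL0]
    nlinarith
  have hKlog : K / Real.log Z ≤ δ₀ / 5 := by
    rw [div_le_div_iff₀ hlog (by norm_num)]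
    have h1 : 5 * K / δ₀ ≤ Real.log Z := by linarith
    rw [div_le_iff₀ hδ₀] at h1
    linarith
  have hW80 : 80 / δ₀ ≤ W := by linarith
  have hW1 : 1 ≤ δ₀ * W / 80 := by
    rw [div_le_iff₀ hδ₀] at hW80
    linarith
  have hW0 : 0 < W := by linarith
  rw [abs_le] at hL2
  have hfin := wc_le_blk hs S Z (2 ^ B) a
  have g3 : 95 / 100 * δ₀ * W ≤ ((wc {x | s * x ∈ S} L (2 * L) 1 0).card : ℝ) / L * W :=
    mul_le_mul_of_nonneg_right hw2 hW0.le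
  have g4 : K / Real.log Z * W ≤ δ₀ / 5 * W := mul_le_mul_of_nonneg_right hKlog hW0.le
  have g5 : 0 < δ₀ * W := by positivity
  have hcc : (wc {x | s * x ∈ S} Z (2 * Z) (2 ^ B * 3 ^ 0) (s * a)) = wc {x | s * x ∈ S} Z (2 * Z) (2 ^ B) (s * a) := by
    rw [pow_zero, mul_one]
  have g6 := hL2.1
  linarith

end Pool.Agent.K1H87.PR
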