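import Mathlib
import Pool.Agent.H33.G.R_pool_sql_team_seeded_efc1946e.K1H87.PR.Prm2

/-! Primes in invariant sets. -/

set_option autoImplicit false

namespace Pool.Agent.K1H87.PR

open Finset Filter Topology
open Pool.Agent.H499R2.CO (Tz)
open Pool.Agent.TH204.CP (ind pv QD LocE locS lam F3 cnt)

/-- blocks are disjoint -/
theorem blk_disj2 {s : ℤ} (hs : s = 1 ∨ s = -1) {k k' L : ℕ} (hkk : k ≠ k') {z : ℤ}
    (h : z ∈ win (blk s k (2 ^ L)) (2 ^ L)) (h' : z ∈ win (blk s k' (2 ^ L)) (2 ^ L)) : False := by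
  have hp : (0 : ℤ) < 2 ^ L := by positivity
  wlog hlt : k < k' generalizing k k'
  · exact this hkk.symm h' h (lt_of_le_of_ne (not_lt.1 hlt) hkk.symm)
  have h1 : ((k + 1 : ℕ) : ℤ) * 2 ^ L ≤ (k' : ℤ) * 2 ^ L :=
    mul_le_mul_of_nonneg_right (by exact_mod_cast hlt) hp.le
  have h2 : (k' : ℤ) * 2 ^ L < ((k' + 1 : ℕ) : ℤ) * 2 ^ L := by push_cast; nlinarith
  rcases hs with rfl | rfl
  · rw [mem_blk1] at h h'
    obtain ⟨a1, a2⟩ := h
    obtain ⟨b1, b2⟩ := h'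
    linarith
  · rw [mem_blk2] at h h'
    obtain ⟨a1, a2⟩ := h
    obtain ⟨b1, b2⟩ := h'
    linarith

theorem ar1 (a g X h : ℝ) (ha : a ≠ 0) : g * (h * (X / (2 * a))) - 4 * (g * (h / (16 * a) * X)) =
    g * X * (h / (4 * a)) := by
  field_simp; ring

/-- PRIMES IN INVARIANT SETS -/
theorem primes_main {s : ℤ} (hs : s = 1 ∨ s = -1) {α : ℤ} (hα : α ≠ 0) {δ c : ℝ} (hδ : 0 < δ) (hc : 0 < c) :
    ∃ c'' τ : ℝ, 0 < c'' ∧ 0 < τ ∧ ∀ᶠ N : ℕ in atTop, ∀ (Z₀ : ℝ) (S : Set ℤ), (∀ x, x ∈ S ↔ Tz 1 x ∈ S) →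
      LDP s S δ c Z₀ → Z₀ ≤ (N : ℝ) ^ τ → ∀ β : ℤ,
      (∀ x : ℝ, (N : ℝ) / 4 ≤ s * x → s * x ≤ N →
        (N : ℝ) / (16 * |(α : ℝ)|) ≤ (x - β) / α ∧ (x - β) / α ≤ 4 * N) →
      c'' * (N / Real.log N) ≤ ({p : ℕ | p.Prime ∧ (N : ℝ) / 4 ≤ s * (α * p + β) ∧
        (s : ℝ) * (α * p + β) ≤ N ∧ α * p + β ∈ S}.ncard : ℝ) := by
  classical
  obtain ⟨δH, ηH, hδ0, hδ1, hη0, X₀, hX₀, hH⟩ := Pool.Agent.H295R3.D.hoheisel
  set a : ℝ := |(α : ℝ)| with ha
  have hα1 : (1 : ℝ) ≤ a := by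
    have : 1 ≤ |α| := Int.one_le_abs hα
    rw [ha, ← Int.cast_abs]; exact_mod_cast this
  have ha0 : 0 < a := by linarith
  obtain ⟨c', hc'0, hsol⟩ := solid_of (s := s) (A := 4 / δH) (εf := ηH / (16 * a)) (δ := δ) (c := c)
    (by positivity) (by positivity) hδ hc
  obtain ⟨η, hη, hup⟩ := Pool.Agent.TH204.CP.upper (c' * ηH / (160 * a)) (by positivity)
  rw [eventually_atTop] at hsol
  obtain ⟨L₀, hL₀⟩ := hsol
  refine ⟨c' * ηH / (64 * a), δH / 4, by positivity, by positivity, ?_⟩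
  have ht5 : Tendsto (fun N : ℕ => 5 * N) atTop atTop := tendsto_id.const_mul_atTop' (by norm_num)
  filter_upwards [params hδ0 hδ1 L₀, ev_scale hδ0 hδ1 X₀ η a hη hα1, ht5.eventually hup, locS hs η hη,
    eventually_ge_atTop 1] with N hpar hsc hupN hlocN hNpos Z₀ S hS hL hZ β hβ
  obtain ⟨L, K₀, hLL, hK1, hN1, hN2, hL1, hL2, hK2⟩ := hpar
  obtain ⟨Lp, g1, g2, g3, g4, g5, g6, g7, g8, g9, g10, g11⟩ := hsc
  obtain ⟨E, hE1, hE2⟩ := hlocN
  have hN0 : (0 : ℝ) < N := by exact_mod_cast hNpos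
  have hN1R : (1 : ℝ) ≤ N := by exact_mod_cast hNpos
  have h2L : (0 : ℝ) < 2 ^ L := by positivity
  have hN1' : (2 * K₀ * 2 ^ L : ℝ) ≤ N := by exact_mod_cast hN1
  have hN2' : (N : ℝ) ≤ 4 * K₀ * 2 ^ L := by exact_mod_cast hN2
  have hK1R : (1 : ℝ) ≤ K₀ := by exact_mod_cast hK1
  -- the good blocks
  have hA : (2 : ℝ) ^ L ≤ (K₀ : ℝ) ^ (4 / δH) := by
    have h1 : ((N : ℝ) ^ (δH / 4)) ^ (4 / δH) = N := by
      rw [← Real.rpow_mul hN0.le, show δH / 4 * (4 / δH) = 1 by field_simp, Real.rpow_one]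
    have h2 : ((N : ℝ) ^ (δH / 4)) ^ (4 / δH) ≤ (K₀ : ℝ) ^ (4 / δH) :=
      Real.rpow_le_rpow (by positivity) hK2 (by positivity)
    have h3 : (N : ℝ) ^ (1 - δH / 2) ≤ (N : ℝ) ^ (1 : ℝ) := Real.rpow_le_rpow_of_exponent_le hN1R (by linarith)
    rw [Real.rpow_one] at h3
    linarith
  have hsolid := hL₀ L hLL Z₀ S hS hL K₀ hK1 hA (hZ.trans hK2)
  obtain ⟨G, hGdef⟩ : ∃ G : Finset ℕ, G = (Ico K₀ (2 * K₀)).filter (fun k =>
    ({n ∈ (win (blk s k (2 ^ L)) (2 ^ L) : Set ℤ) | n ∉ S}.ncard : ℝ) ≤ ηH / (16 * a) * 2 ^ L) := ⟨_, rfl⟩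
  have hGsub : G ⊆ Ico K₀ (2 * K₀) := by rw [hGdef]; exact filter_subset _ _
  have hGc : c' * K₀ ≤ (G.card : ℝ) := by
    refine hsolid.trans (le_of_eq ?_)
    rw [hGdef, ← Set.ncard_coe_finset]
    congr 2
    ext k
    simp
  have hGbad : ∀ k ∈ G, ({n ∈ (win (blk s k (2 ^ L)) (2 ^ L) : Set ℤ) | n ∉ S}.ncard : ℝ) ≤
      ηH / (16 * a) * 2 ^ L := by
    intro k hk
    rw [hGdef, mem_filter] at hk
    exact hk.2
  -- the sieve bound
  have hαn : ((|α|.toNat * Lp : ℕ) : ℤ) = |α| * Lp := by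
    push_cast
    rw [Int.toNat_of_nonneg (abs_nonneg α)]
  have hloc' := hE2 (|α|.toNat * Lp) (by
    have h1 : ((|α|.toNat * Lp : ℕ) : ℝ) = a * Lp := by
      have : (((|α|.toNat * Lp : ℕ) : ℤ) : ℝ) = ((|α| * Lp : ℤ) : ℝ) := by rw [hαn]
      push_cast at this ⊢
      rw [this]
    rw [h1]; exact g3) S hS
  have hLocE : LocE (PP s α β S G L) (EE s α β E K₀ L Lp (5 * N)) (5 * N) Lp := by
    apply loc_EE hs hGsub hN1 hN2 hK1
    intro n hn hnE h hh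
    apply hloc' n hn hnE h
    rw [mem_Icc] at hh ⊢
    rw [hαn]
    exact hh
  have hEEc : ((EE s α β E K₀ L Lp (5 * N)).card : ℝ) ≤ η * (5 * N : ℕ) := by
    refine (card_EE hs hα E hK1 L g4 (5 * N)).trans ?_
    have h1 : (K₀ : ℝ) ≤ (N : ℝ) ^ (δH / 2) := by
      have h2 : (N : ℝ) = (N : ℝ) ^ (1 - δH / 2) * (N : ℝ) ^ (δH / 2) := by
        rw [← Real.rpow_add hN0]; norm_num
      have h3 : (N : ℝ) ^ (1 - δH / 2) * K₀ ≤ (N : ℝ) ^ (1 - δH / 2) * (N : ℝ) ^ (δH / 2) := by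
        rw [← h2]
        calc (N : ℝ) ^ (1 - δH / 2) * K₀ ≤ (2 * 2 ^ L) * K₀ :=
              mul_le_mul_of_nonneg_right (by linarith) (by positivity)
          _ = 2 * K₀ * 2 ^ L := by ring
          _ ≤ N := hN1'
      exact le_of_mul_le_mul_left h3 (by positivity)
    have h2 : 26 * (K₀ : ℝ) * Lp ≤ η * N := by
      calc 26 * (K₀ : ℝ) * Lp ≤ 26 * (N : ℝ) ^ (δH / 2) * Lp :=
            mul_le_mul_of_nonneg_right (by linarith) (by positivity)
        _ ≤ 52 * Lp * (N : ℝ) ^ (δH / 2) := by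
            have : 0 ≤ (Lp : ℝ) * (N : ℝ) ^ (δH / 2) := by positivity
            linarith
        _ ≤ η * N := g5
    push_cast
    have h3 : 0 ≤ η * N := by positivity
    linarith
  have hup1 := hupN Lp g1 g2 (PP s α β S G L) _ hEEc hLocE 0 (by
    rw [abs_zero]; positivity)
  rw [Pool.Agent.TH204.CP.QD_eq] at hup1
  have hcnt := cnt_PP (s := s) (β := β) hα (S := S) (G := G) (L := L) hGbad (5 * N)
  set Q : ℝ := ({p : ℕ | p.Prime ∧ (0 : ℤ) < p ∧ (p : ℤ) ≤ 0 + (5 * N : ℕ) ∧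
    PP s α β S G L (p - 0)}.ncard : ℝ) with hQ
  have hcast5 : (((5 * N : ℕ) : ℕ) : ℝ) = 5 * N := by push_cast; ring
  rw [hcast5] at hup1
  have hlog5 : 0 < Real.log (5 * N) := Real.log_pos (by linarith)
  -- the primes in the good blocks
  have hblk : ∀ k ∈ G, ηH * (2 ^ L / (2 * a)) / Real.log (5 * N) ≤
      (((range (5 * N + 1)).filter (fun p : ℕ => p.Prime ∧ α * p + β ∈ win (blk s k (2 ^ L)) (2 ^ L))).card : ℝ) := by
    intro k hk
    obtain ⟨e, he1, he2, he3, he4, he5⟩ := blk_ends hs (hGsub hk) hN1 hN2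
    have r1 := hβ e he2 he3
    have r2 := hβ (e + 2 ^ L) he4 he5
    have key := primes_blk (β := β) hα hH hη0 hδ1 (N := N) (e := e) (h := 2 ^ L) (by linarith) r1.1 r1.2 r2.1 r2.2
      g6 (by
        refine g8.trans ?_
        rw [div_le_div_iff₀ (by positivity) (by positivity)]
        have := mul_le_mul_of_nonneg_left hL2 (show 0 ≤ 4 * a by positivity)
        linarith) (by
        rw [div_le_div_iff₀ (by positivity) (by positivity)]
        have h1 : 16 * (2 : ℝ) ^ L ≤ N := by linarith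
        have := mul_le_mul_of_nonneg_right h1 ha0.le
        linarith)
    refine key.trans (le_of_eq ?_)
    congr 2
    ext p
    rw [mem_filter, mem_filter, mem_win, ← he1]
    push_cast
    rfl
  -- the union over the blocks
  set T : Finset ℕ := G.biUnion (fun k => (range (5 * N + 1)).filter
    (fun p : ℕ => p.Prime ∧ α * p + β ∈ win (blk s k (2 ^ L)) (2 ^ L))) with hT
  have hTc : (G.card : ℝ) * (ηH * (2 ^ L / (2 * a)) / Real.log (5 * N)) ≤ (T.card : ℝ) := by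
    rw [hT, card_biUnion]
    · push_cast
      rw [← nsmul_eq_mul, ← sum_const]
      exact sum_le_sum hblk
    · intro k _ k' _ hkk
      show Disjoint _ _
      rw [disjoint_left]
      intro p hp hp'
      rw [mem_filter] at hp hp'
      exact blk_disj2 hs hkk hp.2.2 hp'.2.2
  -- split
  have hTsub : (T : Set ℕ) ⊆ {p : ℕ | p.Prime ∧ (N : ℝ) / 4 ≤ s * (α * p + β) ∧
        (s : ℝ) * (α * p + β) ≤ N ∧ α * p + β ∈ S} ∪
        {p : ℕ | p.Prime ∧ (0 : ℤ) < p ∧ (p : ℤ) ≤ 0 + (5 * N : ℕ) ∧ PP s α β S G L (p - 0)} := by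
    intro p hp
    rw [mem_coe, hT, mem_biUnion] at hp
    obtain ⟨k, hk, hp⟩ := hp
    rw [mem_filter, mem_range] at hp
    obtain ⟨hp1, hp2, hp3⟩ := hp
    by_cases hpS : α * (p : ℤ) + β ∈ S
    · left
      obtain ⟨e, he1, he2, he3, he4, he5⟩ := blk_ends hs (hGsub hk) hN1 hN2
      rw [mem_win, ← he1] at hp3
      push_cast at hp3
      obtain ⟨w1, w2⟩ := hp3
      refine ⟨hp2, ?_, ?_, hpS⟩
      · rcases hs with rfl | rfl <;> push_cast at he2 he3 he4 he5 ⊢ <;> linarith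
      · rcases hs with rfl | rfl <;> push_cast at he2 he3 he4 he5 ⊢ <;> linarith
    · right
      refine ⟨hp2, by exact_mod_cast hp2.pos, by push_cast; omega, ?_⟩
      rw [sub_zero]
      exact ⟨hpS, k, hk, hp3⟩
  have hfin1 : ({p : ℕ | p.Prime ∧ (N : ℝ) / 4 ≤ s * (α * p + β) ∧
        (s : ℝ) * (α * p + β) ≤ N ∧ α * p + β ∈ S}).Finite := by
    apply (finite_toSet (range (4 * N + 1))).subset
    rintro p ⟨_, h1, h2, _⟩
    have h4 := (hβ (α * p + β) h1 h2).2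
    have hαR : (α : ℝ) ≠ 0 := by exact_mod_cast hα
    rw [add_sub_cancel_right, mul_div_cancel_left₀ _ hαR] at h4
    have h5 : p ≤ 4 * N := by exact_mod_cast h4
    rw [mem_coe, mem_range]; omega
  have hfin2 : ({p : ℕ | p.Prime ∧ (0 : ℤ) < p ∧ (p : ℤ) ≤ 0 + (5 * N : ℕ) ∧
      PP s α β S G L (p - 0)}).Finite := by
    apply (finite_toSet (range (5 * N + 1))).subset
    rintro p ⟨_, _, h2, _⟩
    rw [mem_coe, mem_range]; omega
  have hfinal : (T.card : ℝ) ≤ ({p : ℕ | p.Prime ∧ (N : ℝ) / 4 ≤ s * (α * p + β) ∧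
        (s : ℝ) * (α * p + β) ≤ N ∧ α * p + β ∈ S}.ncard : ℝ) + Q := by
    rw [hQ, ← Set.ncard_coe_finset]
    have h1 := Set.ncard_le_ncard hTsub (hfin1.union hfin2)
    have h2 := Set.ncard_union_le {p : ℕ | p.Prime ∧ (N : ℝ) / 4 ≤ s * (α * p + β) ∧
        (s : ℝ) * (α * p + β) ≤ N ∧ α * p + β ∈ S}
        {p : ℕ | p.Prime ∧ (0 : ℤ) < p ∧ (p : ℤ) ≤ 0 + (5 * N : ℕ) ∧ PP s α β S G L (p - 0)}
    exact_mod_cast h1.trans h2
  -- arithmetic
  have hQ1 : Q * Real.log (5 * N) ≤ 4 * (G.card * (ηH / (16 * a) * 2 ^ L)) + c' * ηH / (160 * a) * (5 * N) := by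
    linarith
  have hT1 : (G.card : ℝ) * (ηH * (2 ^ L / (2 * a))) ≤ T.card * Real.log (5 * N) := by
    have h1 : (G.card : ℝ) * (ηH * (2 ^ L / (2 * a)) / Real.log (5 * N)) =
      (G.card : ℝ) * (ηH * (2 ^ L / (2 * a))) / Real.log (5 * N) := by ring
    rw [h1, div_le_iff₀ hlog5] at hTc
    exact hTc
  set R : ℝ := ({p : ℕ | p.Prime ∧ (N : ℝ) / 4 ≤ s * (α * p + β) ∧
        (s : ℝ) * (α * p + β) ≤ N ∧ α * p + β ∈ S}.ncard : ℝ) with hR
  have hR0 : 0 ≤ R := Nat.cast_nonneg _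
  have h1 : c' * ηH / (32 * a) * N ≤ R * Real.log (5 * N) := by
    have e1 : (G.card : ℝ) * (ηH * (2 ^ L / (2 * a))) - 4 * (G.card * (ηH / (16 * a) * 2 ^ L)) =
        G.card * 2 ^ L * (ηH / (4 * a)) := ar1 a _ _ _ ha0.ne'
    have e2 : c' * ηH / (160 * a) * (5 * N) = c' * ηH / (32 * a) * N := by field_simp; ring
    have e3 : c' * ηH / (16 * a) * N ≤ G.card * 2 ^ L * (ηH / (4 * a)) := by
      calc c' * ηH / (16 * a) * N ≤ c' * ηH / (16 * a) * (4 * K₀ * 2 ^ L) :=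
            mul_le_mul_of_nonneg_left hN2' (by positivity)
        _ = (c' * K₀) * 2 ^ L * (ηH / (4 * a)) := by field_simp; ring
        _ ≤ _ := by
          apply mul_le_mul_of_nonneg_right _ (by positivity)
          exact mul_le_mul_of_nonneg_right hGc h2L.le
    have e4 : c' * ηH / (16 * a) * N = 2 * (c' * ηH / (32 * a) * N) := by field_simp; ring
    have e5 : (T.card : ℝ) * Real.log (5 * N) ≤ (R + Q) * Real.log (5 * N) :=
      mul_le_mul_of_nonneg_right hfinal hlog5.le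
    rw [add_mul] at e5
    linarith
  have h2 : R * Real.log (5 * N) ≤ R * (2 * Real.log N) := mul_le_mul_of_nonneg_left g10 hR0
  have h3 : c' * ηH / (64 * a) * (N / Real.log N) = c' * ηH / (32 * a) * N / (2 * Real.log N) := by
    field_simp; ring
  rw [h3, div_le_iff₀ (by linarith)]
  linarith

end Pool.Agent.K1H87.PR
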