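import Mathlib
import Pool.Agent.H33.G.R_pool_sql_team_seeded_efc1946e.K1H87.PR.Prm3
import Pool.Agent.H33.G.R_pool_sql_team_seeded_efc1946e.K1H87.PR.LDPu
import Pool.Agent.H33.G.R_seed8.H499R2.NDCor

/-! Primes in invariant sets: uniform statements. -/

set_option autoImplicit false

namespace Pool.Agent.K1H87.PR

open Finset Filter Topology
open Pool.Agent.H499R2.CO (Tz)
open Pool.Agent.H499R2.ND (HD)

/-- PRIMES IN INVARIANT SETS, uniform in the set -/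
theorem primes_unif {s : ℤ} (hs : s = 1 ∨ s = -1) {α : ℤ} (hα : α ≠ 0) {δ₀ : ℝ} (hδ₀ : 0 < δ₀) :
    ∃ c : ℝ, 0 < c ∧ ∀ᶠ N : ℕ in atTop, ∀ S : Set ℤ, (∀ x, x ∈ S ↔ Tz 1 x ∈ S) →
      ∀ δ : ℝ, HD s S δ → δ₀ ≤ δ → ∀ β : ℤ,
      (∀ x : ℝ, (N : ℝ) / 4 ≤ s * x → s * x ≤ N →
        (N : ℝ) / (16 * |(α : ℝ)|) ≤ (x - β) / α ∧ (x - β) / α ≤ 4 * N) →
      c * (N / Real.log N) ≤ ({p : ℕ | p.Prime ∧ (N : ℝ) / 4 ≤ s * (α * p + β) ∧
        (s : ℝ) * (α * p + β) ≤ N ∧ α * p + β ∈ S}.ncard : ℝ) := by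
  obtain ⟨c, hc, hldp⟩ := ldp_unif hs
  obtain ⟨Z₀, hZ₀⟩ := hldp δ₀ hδ₀
  obtain ⟨c'', τ, hc'', hτ, h⟩ := primes_main hs hα hδ₀ hc
  refine ⟨c'', hc'', ?_⟩
  have t1 : Tendsto (fun N : ℕ => (N : ℝ) ^ τ) atTop atTop :=
    (tendsto_rpow_atTop hτ).comp tendsto_natCast_atTop_atTop
  filter_upwards [h, t1.eventually_ge_atTop Z₀] with N h1 h2 S hS δ hδ hδδ β hβ
  exact h1 Z₀ S hS (hZ₀ S hS δ hδ hδδ) h2 β hβ

/-- linear forms -/
theorem primes_lin {s : ℤ} (hs : s = 1 ∨ s = -1) {a : ℤ} (ha : 1 ≤ a) {δ₀ : ℝ} (hδ₀ : 0 < δ₀) :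
    ∃ c : ℝ, 0 < c ∧ ∀ᶠ N : ℕ in atTop, ∀ S : Set ℤ, (∀ x, x ∈ S ↔ Tz 1 x ∈ S) →
      ∀ δ : ℝ, HD s S δ → δ₀ ≤ δ → ∀ b : ℤ, 8 * |b| ≤ N →
      c * (N / Real.log N) ≤ ({p : ℕ | p.Prime ∧ (N : ℤ) ≤ 4 * (a * p + b) ∧ a * p + b ≤ N ∧
        s * (a * p + b) ∈ S}.ncard : ℝ) := by
  have hsa : s * a ≠ 0 := by
    rcases hs with rfl | rfl <;> omega
  have hss : (s : ℝ) * s = 1 := by rcases hs with rfl | rfl <;> norm_num
  obtain ⟨c, hc, h⟩ := primes_unif hs hsa hδ₀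
  refine ⟨c, hc, ?_⟩
  filter_upwards [h, eventually_ge_atTop 1] with N h1 hN S hS δ hδ hδδ b hb
  have haR : (1 : ℝ) ≤ a := by exact_mod_cast ha
  have hNR : (1 : ℝ) ≤ N := by exact_mod_cast hN
  have hbR : 8 * |(b : ℝ)| ≤ N := by exact_mod_cast hb
  have hb1 := neg_abs_le (b : ℝ)
  have hb2 := le_abs_self (b : ℝ)
  have habs : |((s * a : ℤ) : ℝ)| = a := by
    rcases hs with rfl | rfl
    · rw [one_mul, abs_of_pos (by linarith)]
    · rw [neg_one_mul, Int.cast_neg, abs_neg, abs_of_pos (by linarith)]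
  have h2 := h1 S hS δ hδ hδδ (s * b) (by
    intro x hx1 hx2
    rw [habs]
    have e1 : (x - ((s * b : ℤ) : ℝ)) / ((s * a : ℤ) : ℝ) = (s * x - b) / a := by
      rcases hs with rfl | rfl
      · push_cast; ring_nf
      · push_cast
        rw [show (-1 : ℝ) * x - b = -(x - -1 * b) by ring, show (-1 : ℝ) * a = -a by ring, div_neg, neg_div]
    rw [e1]
    constructor
    · rw [div_le_div_iff₀ (by positivity) (by linarith)]
      have h3 : (N : ℝ) ≤ 16 * (s * x - b) := by linarith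
      calc (N : ℝ) * a ≤ 16 * (s * x - b) * a := mul_le_mul_of_nonneg_right h3 (by linarith)
        _ = _ := by ring
    · rw [div_le_iff₀ (by linarith)]
      have h3 : (s : ℝ) * x - b ≤ 4 * N := by linarith
      have h4 : (4 : ℝ) * N ≤ 4 * N * a := le_mul_of_one_le_right (by positivity) haR
      linarith)
  refine h2.trans (le_of_eq ?_)
  congr 2
  ext p
  simp only [Set.mem_ofPred_eq]
  have e2 : (s : ℝ) * (((s * a : ℤ) : ℝ) * p + ((s * b : ℤ) : ℝ)) = ((a * p + b : ℤ) : ℝ) := by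
    push_cast
    calc (s : ℝ) * (s * a * p + s * b) = (s * s) * (a * p + b) := by ring
      _ = _ := by rw [hss, one_mul]
  have e3 : (s * a * (p : ℤ) + s * b) = s * (a * p + b) := by ring
  rw [e2, e3]
  constructor
  · rintro ⟨h3, h4, h5, h6⟩
    refine ⟨h3, ?_, by exact_mod_cast h5, h6⟩
    rw [div_le_iff₀ (by norm_num)] at h4
    have : (N : ℤ) ≤ (a * p + b) * 4 := by exact_mod_cast h4
    linarith
  · rintro ⟨h3, h4, h5, h6⟩
    refine ⟨h3, ?_, by exact_mod_cast h5, h6⟩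
    rw [div_le_iff₀ (by norm_num)]
    have : (N : ℤ) ≤ (a * p + b) * 4 := by linarith
    exact_mod_cast this

/-- `x ↦ x / log x` -/
theorem half_log {N M : ℕ} (hM : M = N / 2) (hN : 4 ≤ M) : (1 / 3 : ℝ) * (N / Real.log N) ≤ M / Real.log M := by
  have h1 : N ≤ 2 * M + 1 := by omega
  have h2 : (N : ℝ) ≤ 3 * M := by
    have : N ≤ 3 * M := by omega
    exact_mod_cast this
  have h3 : (M : ℝ) ≤ N := by
    have : M ≤ N := by omega
    exact_mod_cast this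
  have h4 : (4 : ℝ) ≤ M := by exact_mod_cast hN
  have h5 : 0 < Real.log M := Real.log_pos (by linarith)
  have h6 : Real.log M ≤ Real.log N := Real.log_le_log (by linarith) h3
  rw [← mul_div_assoc, div_le_div_iff₀ (by linarith) h5]
  calc 1 / 3 * (N : ℝ) * Real.log M ≤ M * Real.log M := by
        apply mul_le_mul_of_nonneg_right _ h5.le
        linarith
    _ ≤ M * Real.log N := mul_le_mul_of_nonneg_left h6 (by linarith)

/-- differences -/
theorem primes_diff {s : ℤ} (hs : s = 1 ∨ s = -1) {a : ℤ} (ha : 1 ≤ a) {δ₀ : ℝ} (hδ₀ : 0 < δ₀) :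
    ∃ c : ℝ, 0 < c ∧ ∀ᶠ N : ℕ in atTop, ∀ S : Set ℤ, (∀ x, x ∈ S ↔ Tz 1 x ∈ S) →
      ∀ δ : ℝ, HD s S δ → δ₀ ≤ δ →
      c * (N / Real.log N) ≤ ({p : ℕ | p.Prime ∧ 1 ≤ N - a * p ∧ s * (N - a * p) ∈ S}.ncard : ℝ) := by
  have hsa : -(s * a) ≠ 0 := by
    rcases hs with rfl | rfl <;> omega
  have hss : (s : ℝ) * s = 1 := by rcases hs with rfl | rfl <;> norm_num
  obtain ⟨c, hc, h⟩ := primes_unif hs hsa hδ₀
  refine ⟨c / 3, by positivity, ?_⟩
  have ht : Tendsto (fun N : ℕ => N / 2) atTop atTop := Nat.tendsto_div_const_atTop (by norm_num)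
  filter_upwards [ht.eventually h, eventually_ge_atTop 8] with N h1 hN S hS δ hδ hδδ
  obtain ⟨M, hM⟩ : ∃ M : ℕ, M = N / 2 := ⟨_, rfl⟩
  rw [← hM] at h1
  have haR : (1 : ℝ) ≤ a := by exact_mod_cast ha
  have hM4 : 4 ≤ M := by omega
  have hM4R : (4 : ℝ) ≤ M := by exact_mod_cast hM4
  have h2M : 2 * (M : ℝ) ≤ N := by
    have : 2 * M ≤ N := by omega
    exact_mod_cast this
  have h2M' : (N : ℝ) ≤ 2 * M + 1 := by
    have : N ≤ 2 * M + 1 := by omega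
    exact_mod_cast this
  have habs : |((-(s * a) : ℤ) : ℝ)| = a := by
    rcases hs with rfl | rfl
    · rw [one_mul, Int.cast_neg, abs_neg, abs_of_pos (by linarith)]
    · rw [neg_one_mul, neg_neg, abs_of_pos (by linarith)]
  have h2 := h1 S hS δ hδ hδδ (s * N) (by
    intro x hx1 hx2
    rw [habs]
    have e1 : (x - ((s * N : ℤ) : ℝ)) / ((-(s * a) : ℤ) : ℝ) = (N - s * x) / a := by
      rcases hs with rfl | rfl
      · push_cast
        rw [one_mul, one_mul, one_mul, div_neg, ← neg_div, neg_sub]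
      · push_cast
        ring_nf
    rw [e1]
    constructor
    · rw [div_le_div_iff₀ (by positivity) (by linarith)]
      have h3 : (M : ℝ) ≤ 16 * (N - s * x) := by linarith
      calc (M : ℝ) * a ≤ 16 * (N - s * x) * a := mul_le_mul_of_nonneg_right h3 (by linarith)
        _ = _ := by ring
    · rw [div_le_iff₀ (by linarith)]
      have h3 : (N : ℝ) - s * x ≤ 4 * M := by linarith
      have h4 : (4 : ℝ) * M ≤ 4 * M * a := le_mul_of_one_le_right (by positivity) haR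
      linarith)
  have h3 := half_log hM hM4
  have h4 : c / 3 * (N / Real.log N) ≤ c * (M / Real.log M) := by
    have := mul_le_mul_of_nonneg_left h3 hc.le
    linarith
  refine h4.trans (h2.trans ?_)
  have hfin : ({p : ℕ | p.Prime ∧ 1 ≤ (N : ℤ) - a * p ∧ s * (N - a * p) ∈ S}).Finite := by
    apply (Set.finite_Iic N).subset
    rintro p ⟨_, h5, _⟩
    rw [Set.mem_Iic]
    have : (p : ℤ) ≤ a * p := le_mul_of_one_le_left (by positivity) ha
    omega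
  have hsub : {p : ℕ | p.Prime ∧ (M : ℝ) / 4 ≤ s * (((-(s * a) : ℤ) : ℝ) * p + ((s * N : ℤ) : ℝ)) ∧
        (s : ℝ) * (((-(s * a) : ℤ) : ℝ) * p + ((s * N : ℤ) : ℝ)) ≤ M ∧ -(s * a) * p + s * N ∈ S} ⊆
      {p : ℕ | p.Prime ∧ 1 ≤ (N : ℤ) - a * p ∧ s * (N - a * p) ∈ S} := by
    rintro p ⟨h5, h6, h7, h8⟩
    have e2 : (s : ℝ) * (((-(s * a) : ℤ) : ℝ) * p + ((s * N : ℤ) : ℝ)) = ((N - a * p : ℤ) : ℝ) := by
      push_cast
      calc (s : ℝ) * (-(s * a) * p + s * N) = (s * s) * (N - a * p) := by ring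
        _ = _ := by rw [hss, one_mul]
    have e3 : (-(s * a) * (p : ℤ) + s * N) = s * (N - a * p) := by ring
    rw [e2] at h6
    rw [e3] at h8
    refine ⟨h5, ?_, h8⟩
    have : (0 : ℝ) < ((N - a * p : ℤ) : ℝ) := by linarith
    have : (0 : ℤ) < (N - a * p : ℤ) := by exact_mod_cast this
    omega
  exact_mod_cast Set.ncard_le_ncard hsub hfin

end Pool.Agent.K1H87.PR
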